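import Pool.Agent.X201.KW.Wr
import Pool.Agent.TH63.KQ.Stallings

/-! Kervaire extensions after a homomorphism to a wreath product by a residually finite `q`-group. -/

set_option autoImplicit false

open Monoid
open Pool.Agent.TH63.KQ (eta power)

namespace Pool.Agent.X201.KW

open Wr

/-- residually a finite `q`-group -/
def ResQ (q : ℕ) (Q : Type) [Group Q] : Prop :=
  ∀ x : Q, x ≠ 1 → ∃ (P : Type) (_ : Group P) (π : Q →* P),
    (∃ k : ℕ, Nat.card P = q ^ k) ∧ π x ≠ 1

/-- finitely many elements at once -/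
theorem ResQ.finset {q : ℕ} (hq : q.Prime) {Q : Type} [Group Q] (h : ResQ q Q) (B : Finset Q) :
    ∃ (P : Type) (_ : Group P) (π : Q →* P),
      (∃ k : ℕ, Nat.card P = q ^ k) ∧ Function.Surjective π ∧ ∀ b ∈ B, π b = 1 → b = 1 := by
  classical
  have h1 : ∃ (P : Type) (_ : Group P) (π : Q →* P),
      (∃ k : ℕ, Nat.card P = q ^ k) ∧ ∀ b ∈ B, π b = 1 → b = 1 := by
    induction B using Finset.induction_on with
    | empty => exact ⟨Unit, inferInstance, 1, ⟨0, by simp⟩, by simp⟩
    | insert x B _ ih =>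
      obtain ⟨P, _, π, ⟨k, hk⟩, hπ⟩ := ih
      by_cases hx : x = 1
      · refine ⟨P, inferInstance, π, ⟨k, hk⟩, ?_⟩
        intro b hb hb1
        rcases Finset.mem_insert.1 hb with rfl | hb
        · exact hx
        · exact hπ b hb hb1
      · obtain ⟨P', _, π', ⟨k', hk'⟩, hx'⟩ := h x hx
        refine ⟨P × P', inferInstance, π.prod π', ⟨k + k', by rw [Nat.card_prod, hk, hk', pow_add]⟩, ?_⟩
        intro b hb hb1
        rw [MonoidHom.prod_apply, Prod.mk_eq_one] at hb1
        rcases Finset.mem_insert.1 hb with rfl | hb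
        · exact absurd hb1.2 hx'
        · exact hπ b hb hb1.1
  obtain ⟨P, _, π, ⟨k, hk⟩, hπ⟩ := h1
  have hf : Finite P := Nat.finite_of_card_ne_zero (by rw [hk]; exact pow_ne_zero _ hq.ne_zero)
  refine ⟨π.range, inferInstance, π.rangeRestrict, ?_, π.rangeRestrict_surjective, ?_⟩
  · have h2 := Subgroup.card_subgroup_dvd_card π.range
    rw [hk] at h2
    obtain ⟨m, -, hm⟩ := (Nat.dvd_prime_pow hq).1 h2
    exact ⟨m, hm⟩
  · intro b hb hb1
    refine hπ b hb ?_
    have h3 := congrArg Subtype.val hb1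
    simpa using h3

theorem key {q : ℕ} (hq : q.Prime) {V Q G : Type} [AddCommGroup V] [Group Q] [Group G]
    (hQ : ResQ q Q) (Θ : G →* Wr V Q) (hΘ : ∀ x : Q, ∃ g : G, (Θ g).a = x) (n : ℕ)
    (w : Fin n → Coprod G (FreeGroup (Fin n)))
    (hcop : IsCoprime (Matrix.of fun i j : Fin n => Multiplicative.toAdd (eta G n i (w j))).det
      (q : ℤ))
    (r : ℕ) (g : Fin r → G) (hg0 : ∀ i, (Θ (g i)).a = 1)
    (hg : ∃ h : Fin r → (Coprod G (FreeGroup (Fin n)) ⧸ Subgroup.normalClosure (Set.range w)),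
      (List.ofFn fun i => h i * QuotientGroup.mk' (Subgroup.normalClosure (Set.range w))
        (Coprod.inl (g i)) * (h i)⁻¹).prod = 1) :
    ∃ x : Fin r → G, Θ (List.ofFn fun i => x i * g i * (x i)⁻¹).prod = 1 := by
  classical
  have hmain : ∀ B : Finset Q, ∃ (P : Type) (_ : Group P) (π : Q →* P) (m : Fin r → P),
      (∀ b ∈ B, π b = 1 → b = 1) ∧
        ∑ i, Finsupp.mapDomain (fun y => m i * π y) (Θ (g i)).f = 0 := by
    intro B
    obtain ⟨P, iP, π, ⟨k, hk⟩, hπs, hπB⟩ := hQ.finset hq B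
    let Θ' : G →* Wr V P := (Wr.map π).comp Θ
    let w' : Fin n → Coprod (Wr V P) (FreeGroup (Fin n)) := fun j =>
      Coprod.map Θ' (MonoidHom.id _) (w j)
    have heta : ∀ i j, eta (Wr V P) n i (w' j) = eta G n i (w j) := by
      intro i j
      have h1 : (eta (Wr V P) n i).comp (Coprod.map Θ' (MonoidHom.id _)) = eta G n i := by
        apply Coprod.hom_ext
        · refine MonoidHom.ext fun u => ?_
          simp [eta]
        · refine FreeGroup.ext_hom _ _ fun u => ?_
          simp [eta]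
      exact DFunLike.congr_fun h1 (w j)
    have hcop' : IsCoprime (Matrix.of fun i j : Fin n =>
        Multiplicative.toAdd (eta (Wr V P) n i (w' j))).det (q : ℤ) := by
      have e : (Matrix.of fun i j : Fin n => Multiplicative.toAdd (eta (Wr V P) n i (w' j))) =
          Matrix.of fun i j : Fin n => Multiplicative.toAdd (eta G n i (w j)) := by
        ext i j
        exact congrArg Multiplicative.toAdd (heta i j)
      rw [e]
      exact hcop
    have hfin : Finite P := Nat.finite_of_card_ne_zero (by rw [hk]; exact pow_ne_zero _ hq.ne_zero)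
    have hidx : ∃ k : ℕ, (Wr.proj : Wr V P →* P).ker.index = q ^ k := by
      refine ⟨k, ?_⟩
      rw [Subgroup.index_ker]
      have h2 : (Wr.proj : Wr V P →* P).range = ⊤ :=
        MonoidHom.range_eq_top.2 fun x => ⟨⟨0, x⟩, rfl⟩
      rw [h2, ← hk]
      exact Nat.card_congr (Subgroup.topEquiv).toEquiv
    have hcm : ∀ a ∈ (Wr.proj : Wr V P →* P).ker, ∀ b ∈ (Wr.proj : Wr V P →* P).ker,
        a * b = b * a := by
      intro a ha b hb
      have ha' : a.a = 1 := ha
      have hb' : b.a = 1 := hb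
      ext1
      · rw [mul_f, mul_f, ha', hb', sh_one, sh_one, add_comm]
      · rw [mul_a, mul_a, ha', hb']
    -- the homomorphism of the extensions
    have hle : Subgroup.normalClosure (Set.range w) ≤
        (Subgroup.normalClosure (Set.range w')).comap (Coprod.map Θ' (MonoidHom.id _)) := by
      refine Subgroup.normalClosure_le_normal ?_
      rintro _ ⟨j, rfl⟩
      exact Subgroup.subset_normalClosure ⟨j, rfl⟩
    let β := QuotientGroup.map (Subgroup.normalClosure (Set.range w))
      (Subgroup.normalClosure (Set.range w')) (Coprod.map Θ' (MonoidHom.id _)) hle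
    obtain ⟨h, hh⟩ := hg
    obtain ⟨y, hy⟩ := power (Wr V P) (Wr.proj : Wr V P →* P).ker inferInstance hcm q hq n w' hcop'
      hidx r (fun i => Θ' (g i)) ⟨fun i => β (h i), by
        have h3 := congrArg β hh
        rw [map_one, map_list_prod, List.map_ofFn] at h3
        rw [← h3]
        congr 2
        funext i
        simp only [Function.comp_apply, map_mul, map_inv]
        rfl⟩
    refine ⟨P, iP, π, fun i => (y i).a, hπB, ?_⟩
    have h4 : ∀ i, (Θ' (g i)).a = 1 := by
      intro i
      show π (Θ (g i)).a = 1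
      rw [hg0, map_one]
    have h5 := (prod_ofFn (fun i => y i * Θ' (g i) * (y i)⁻¹) fun i => conj_a _ _ (h4 i)).2
    rw [hy, one_f] at h5
    rw [h5]
    refine Finset.sum_congr rfl fun i _ => ?_
    rw [conj_f _ _ (h4 i)]
    show _ = Finsupp.mapDomain (fun z => (y i).a * z) (Finsupp.mapDomain π (Θ (g i)).f)
    rw [← Finsupp.mapDomain_comp]
    rfl
  obtain ⟨m, hm⟩ := unwrap (fun i => (Θ (g i)).f) hmain
  choose x hx using fun i => hΘ (m i)
  refine ⟨x, ?_⟩
  rw [map_list_prod, List.map_ofFn]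
  have e : (⇑Θ ∘ fun i => x i * g i * (x i)⁻¹) = fun i => Θ (x i) * Θ (g i) * (Θ (x i))⁻¹ := by
    funext i
    simp
  rw [e]
  obtain ⟨h1, h2⟩ := prod_ofFn (fun i => Θ (x i) * Θ (g i) * (Θ (x i))⁻¹)
    fun i => conj_a _ _ (hg0 i)
  ext1
  · rw [h2, one_f, ← hm]
    refine Finset.sum_congr rfl fun i _ => ?_
    rw [conj_f _ _ (hg0 i), hx]
    rfl
  · rw [h1, one_a]

end Pool.Agent.X201.KW
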