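import Pool.Agent.Helper867.PF.FreeRes
import Pool.Agent.X201.KW.Key

/-! Free groups are residually finite `p`-groups for all primes `p`. -/

set_option autoImplicit false

namespace Pool.Agent.X201.KW

open Pool.Agent.Helper867.PF

section Rep

variable {α : Type} {L : List (α × ℤ)} (p : ℤ)

/-- the matrix attached to the letter `a` -/
noncomputable def Am' (hc : L.IsChain (fun p q => p.1 ≠ q.1)) (a : α) :
    (Matrix (Fin (L.length + 1)) (Fin (L.length + 1)) ℤ)ˣ where
  val := 1 + p • Nm L a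
  inv := 1 - p • Nm L a
  val_inv := by
    have := Nm_sq hc a
    rw [add_mul, mul_sub, mul_sub, smul_mul_smul_comm, this]; simp
  inv_val := by
    have := Nm_sq hc a
    rw [sub_mul, mul_add, mul_add, smul_mul_smul_comm, this]; simp

theorem Am'_zpow (hc : L.IsChain (fun p q => p.1 ≠ q.1)) (a : α) (m : ℤ) :
    ((Am' p hc a ^ m : (Matrix (Fin (L.length + 1)) (Fin (L.length + 1)) ℤ)ˣ) :
      Matrix (Fin (L.length + 1)) (Fin (L.length + 1)) ℤ) = 1 + (p * m) • Nm L a := by
  have hsq := Nm_sq hc a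
  induction m using Int.induction_on with
  | zero => simp
  | succ n ih =>
    rw [zpow_add_one, Units.val_mul, ih]
    show (1 + (p * (n : ℤ)) • Nm L a) * (1 + p • Nm L a) = _
    rw [add_mul, mul_add, mul_add, smul_mul_smul_comm, hsq]
    rw [smul_zero, add_zero, one_mul, one_mul, mul_one, mul_add, add_smul, mul_one]
    abel
  | pred n ih =>
    rw [zpow_sub_one, Units.val_mul, ih]
    show (1 + (p * (-(n : ℤ))) • Nm L a) * (1 - p • Nm L a) = _
    rw [add_mul, mul_sub, mul_sub, smul_mul_smul_comm, hsq]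
    rw [smul_zero, sub_zero, one_mul, one_mul, mul_one, mul_sub, sub_smul, mul_one]
    abel

/-- the unipotent representation -/
noncomputable def rep' (hc : L.IsChain (fun p q => p.1 ≠ q.1)) :
    FreeGroup α →* (Matrix (Fin (L.length + 1)) (Fin (L.length + 1)) ℤ)ˣ :=
  FreeGroup.lift (Am' p hc)

theorem rep'_suffix (hc : L.IsChain (fun p q => p.1 ≠ q.1)) (L2 : List (α × ℤ)) :
    ∀ L1 : List (α × ℤ), L = L1 ++ L2 → ∀ v : Fin (L.length + 1) → ℤ,
      v = ((rep' p hc (L2.map (fun p => (FreeGroup.of p.1) ^ p.2)).prod :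
        (Matrix (Fin (L.length + 1)) (Fin (L.length + 1)) ℤ)ˣ) :
          Matrix (Fin (L.length + 1)) (Fin (L.length + 1)) ℤ).mulVec
            (Pi.single (Fin.last L.length) 1) →
      (∀ i : Fin (L.length + 1), i.1 < L1.length → v i = 0) ∧
      (∀ i : Fin (L.length + 1), i.1 = L1.length → v i = (L2.map (fun q => p * q.2)).prod) := by
  induction L2 with
  | nil =>
    intro L1 hL v hv
    simp only [List.append_nil] at hL
    simp only [List.map_nil, List.prod_nil, map_one, Units.val_one, Matrix.one_mulVec] at hv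
    refine ⟨?_, ?_⟩
    · intro i hi
      rw [hv, Pi.single_eq_of_ne]
      intro h
      rw [h] at hi
      rw [← hL] at hi
      simp at hi
    · intro i hi
      have : i = Fin.last L.length := by
        apply Fin.ext
        rw [hi, ← hL]; simp
      rw [hv, this]; simp
  | cons b L3 ih =>
    intro L1 hL v hv
    obtain ⟨a, m⟩ := b
    obtain ⟨h1, h2⟩ := ih (L1 ++ [(a, m)]) (by simpa using hL) _ rfl
    set w : Fin (L.length + 1) → ℤ := ((rep' p hc (L3.map (fun p => (FreeGroup.of p.1) ^ p.2)).prod :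
        (Matrix (Fin (L.length + 1)) (Fin (L.length + 1)) ℤ)ˣ) :
          Matrix (Fin (L.length + 1)) (Fin (L.length + 1)) ℤ).mulVec
            (Pi.single (Fin.last L.length) 1) with hw
    have hv' : v = (1 + (p * m) • Nm L a).mulVec w := by
      rw [hv, List.map_cons, List.prod_cons, map_mul, Units.val_mul, ← Matrix.mulVec_mulVec, ← hw]
      congr 1
      rw [map_zpow]
      unfold rep'
      rw [FreeGroup.lift_apply_of, Am'_zpow]
    have hv2 : ∀ i, v i = w i + (p * m) * (Nm L a).mulVec w i := by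
      intro i
      rw [hv', Matrix.add_mulVec, Matrix.one_mulVec, Matrix.smul_mulVec]
      simp
    simp only [List.length_append, List.length_cons, List.length_nil, zero_add] at h1 h2
    have hlen : L.length = L1.length + (L3.length + 1) := by rw [hL]; simp
    refine ⟨?_, ?_⟩
    · intro i hi
      rw [hv2, h1 i (by omega)]
      by_cases hh : hit L a i.1
      · have := Nm_mulVec_hit L a w i.1 hh i.2 (by omega)
        rw [show (⟨i.1, i.2⟩ : Fin (L.length + 1)) = i from rfl] at this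
        rw [this, h1 _ (by show i.1 + 1 < _; omega)]; simp
      · rw [Nm_mulVec_not _ _ _ _ hh]; simp
    · intro i hi
      rw [hv2, h1 i (by omega)]
      have hh : hit L a i.1 := ⟨m, by rw [hi]; nth_rewrite 1 [hL]; simp⟩
      have := Nm_mulVec_hit L a w i.1 hh i.2 (by omega)
      rw [show (⟨i.1, i.2⟩ : Fin (L.length + 1)) = i from rfl] at this
      rw [this, h2 _ (by show i.1 + 1 = _; omega)]
      simp

theorem rep'_ne_one (hp : p ≠ 0) (hc : L.IsChain (fun p q => p.1 ≠ q.1)) (h0 : ∀ p ∈ L, p.2 ≠ 0)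
    (hne : L ≠ []) :
    rep' p hc (L.map (fun p => (FreeGroup.of p.1) ^ p.2)).prod ≠ 1 := by
  intro h
  obtain ⟨-, h2⟩ := rep'_suffix p hc L [] (by simp) _ rfl
  have h3 := h2 ⟨0, by omega⟩ rfl
  rw [h] at h3
  simp only [Units.val_one, Matrix.one_mulVec] at h3
  have hlen : L.length ≠ 0 := by
    intro h; exact hne (List.length_eq_zero_iff.mp h)
  rw [Pi.single_eq_of_ne] at h3
  · have h5 : (L.map (fun q => p * q.2)).prod ≠ 0 := by
      rw [Ne, List.prod_eq_zero_iff]
      intro h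
      rw [List.mem_map] at h
      obtain ⟨q, hq, hq0⟩ := h
      exact (mul_ne_zero hp (h0 q hq)) hq0
    exact h5 h3.symm
  · intro h
    have := congrArg Fin.val h
    simp at this
    omega

end Rep

section PGroup

variable (p n e : ℕ)

/-- the congruence subgroup modulo `p` of the invertible matrices over the integers modulo a power
of `p` -/
def Cong' : Subgroup (Matrix (Fin n) (Fin n) (ZMod (p ^ e)))ˣ where
  carrier := {U | ∃ B : Matrix (Fin n) (Fin n) (ZMod (p ^ e)),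
    (U : Matrix (Fin n) (Fin n) (ZMod (p ^ e))) = 1 + (p : Matrix (Fin n) (Fin n) (ZMod (p ^ e))) * B}
  one_mem' := ⟨0, by simp⟩
  mul_mem' := by
    rintro U V ⟨B, hB⟩ ⟨C, hC⟩
    refine ⟨B + C + p * (B * C), ?_⟩
    rw [Units.val_mul, hB, hC]
    have : (p : Matrix (Fin n) (Fin n) (ZMod (p ^ e))) * B = B * p := Nat.cast_comm p B
    calc (1 + (p : Matrix (Fin n) (Fin n) (ZMod (p ^ e))) * B) * (1 + p * C) =
          1 + p * B + p * C + p * (B * p) * C := by noncomm_ring
      _ = 1 + p * B + p * C + p * (p * B) * C := by rw [this]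
      _ = _ := by noncomm_ring
  inv_mem' := by
    rintro U ⟨B, hB⟩
    refine ⟨-(B * ((U⁻¹ : (Matrix (Fin n) (Fin n) (ZMod (p ^ e)))ˣ) :
      Matrix (Fin n) (Fin n) (ZMod (p ^ e)))), ?_⟩
    have h1 : (U : Matrix (Fin n) (Fin n) (ZMod (p ^ e))) *
      ((U⁻¹ : (Matrix (Fin n) (Fin n) (ZMod (p ^ e)))ˣ) :
      Matrix (Fin n) (Fin n) (ZMod (p ^ e))) = 1 := Units.mul_inv U
    rw [hB, add_mul, one_mul] at h1
    rw [mul_neg, ← mul_assoc]
    exact eq_sub_of_add_eq h1 |>.trans (sub_eq_add_neg _ _)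

theorem pow_eq_zero' : (p : Matrix (Fin n) (Fin n) (ZMod (p ^ e))) ^ e = 0 := by
  have h : ((p ^ e : ℕ) : ZMod (p ^ e)) = 0 := ZMod.natCast_self _
  have h2 : (p : Matrix (Fin n) (Fin n) (ZMod (p ^ e))) ^ e =
      ((p ^ e : ℕ) : Matrix (Fin n) (Fin n) (ZMod (p ^ e))) := by push_cast; rfl
  rw [h2]
  have h3 : ((p ^ e : ℕ) : Matrix (Fin n) (Fin n) (ZMod (p ^ e))) =
      algebraMap (ZMod (p ^ e)) _ ((p ^ e : ℕ) : ZMod (p ^ e)) := by
    rw [map_natCast]
  rw [h3, h, map_zero]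

open Polynomial in
theorem cong'_isPGroup : IsPGroup p (Cong' p n e) := by
  rintro ⟨U, B, hB⟩
  refine ⟨e, ?_⟩
  apply Subtype.ext
  apply Units.ext
  show (((U ^ p ^ e : (Matrix (Fin n) (Fin n) (ZMod (p ^ e)))ˣ)) :
    Matrix (Fin n) (Fin n) (ZMod (p ^ e))) = 1
  obtain ⟨f, hf⟩ : ((p : ℤ[X]) ^ (e + 1)) ∣ (1 + (p : ℤ[X]) * X) ^ p ^ e - 1 ^ p ^ e :=
    dvd_sub_pow_of_dvd_sub (R := ℤ[X]) (p := p) (a := 1 + (p : ℤ[X]) * X) (b := 1)
      ⟨X, by ring⟩ e
  have h1 := congrArg (Polynomial.aeval B) hf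
  rw [map_sub, map_mul, map_pow, map_pow, map_pow, map_add, map_mul, map_one, map_natCast,
    Polynomial.aeval_X, one_pow, pow_succ, pow_eq_zero', zero_mul, zero_mul] at h1
  rw [Units.val_pow_eq_pow_val, hB]
  exact sub_eq_zero.1 h1

end PGroup

/-- Free groups are residually finite `p`-groups. -/
theorem free_resQ {α : Type} {p : ℕ} (hp : p.Prime) : ResQ p (FreeGroup α) := by
  classical
  intro w hw
  obtain ⟨L, h0, hc, hL⟩ := exists_syllables w
  have hne : L ≠ [] := by
    rintro rfl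
    exact hw (by simpa using hL)
  have h1 := rep'_ne_one (p : ℤ) (by exact_mod_cast hp.ne_zero) hc h0 hne
  rw [← hL] at h1
  have h2 : ((rep' (p : ℤ) hc w : (Matrix (Fin (L.length + 1)) (Fin (L.length + 1)) ℤ)ˣ) :
      Matrix (Fin (L.length + 1)) (Fin (L.length + 1)) ℤ) ≠ 1 := by
    intro h; exact h1 (Units.ext h)
  have h3 : ∃ i j, ((rep' (p : ℤ) hc w : (Matrix (Fin (L.length + 1)) (Fin (L.length + 1)) ℤ)ˣ) :
      Matrix (Fin (L.length + 1)) (Fin (L.length + 1)) ℤ) i j ≠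
      (1 : Matrix (Fin (L.length + 1)) (Fin (L.length + 1)) ℤ) i j := by
    by_contra hcon
    push Not at hcon
    exact h2 (by ext i j; exact hcon i j)
  obtain ⟨i, j, hij⟩ := h3
  set c : ℤ := ((rep' (p : ℤ) hc w : (Matrix (Fin (L.length + 1)) (Fin (L.length + 1)) ℤ)ˣ) :
      Matrix (Fin (L.length + 1)) (Fin (L.length + 1)) ℤ) i j -
      (1 : Matrix (Fin (L.length + 1)) (Fin (L.length + 1)) ℤ) i j with hcdef
  have hc0 : c ≠ 0 := sub_ne_zero.mpr hij
  set e : ℕ := c.natAbs with he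
  have hnd : ¬ ((p ^ e : ℕ) : ℤ) ∣ c := by
    intro hd
    have h5 := Int.natAbs_dvd_natAbs.mpr hd
    rw [Int.natAbs_natCast] at h5
    have h6 := Nat.le_of_dvd (Int.natAbs_pos.mpr hc0) h5
    have h7 : e < p ^ e := Nat.lt_pow_self hp.one_lt
    omega
  haveI : NeZero (p ^ e) := ⟨pow_ne_zero _ hp.ne_zero⟩
  let red : Matrix (Fin (L.length + 1)) (Fin (L.length + 1)) ℤ →+*
      Matrix (Fin (L.length + 1)) (Fin (L.length + 1)) (ZMod (p ^ e)) :=
    (Int.castRingHom (ZMod (p ^ e))).mapMatrix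
  let f0 : FreeGroup α →* (Matrix (Fin (L.length + 1)) (Fin (L.length + 1)) (ZMod (p ^ e)))ˣ :=
    (Units.map (red : Matrix (Fin (L.length + 1)) (Fin (L.length + 1)) ℤ →*
      Matrix (Fin (L.length + 1)) (Fin (L.length + 1)) (ZMod (p ^ e)))).comp (rep' (p : ℤ) hc)
  have hmem : ∀ x, f0 x ∈ Cong' p (L.length + 1) e := by
    intro x
    have : f0.range ≤ Cong' p (L.length + 1) e := by
      rw [MonoidHom.range_eq_map, ← FreeGroup.closure_range_of, MonoidHom.map_closure,
        Subgroup.closure_le]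
      rintro _ ⟨_, ⟨a, rfl⟩, rfl⟩
      refine ⟨red (Nm L a), ?_⟩
      show red ((rep' (p : ℤ) hc (FreeGroup.of a) : (Matrix _ _ ℤ)ˣ) : Matrix _ _ ℤ) = _
      unfold rep'
      rw [FreeGroup.lift_apply_of]
      show red (1 + (p : ℤ) • Nm L a) = _
      rw [map_add, map_one, map_zsmul, zsmul_eq_mul, Int.cast_natCast]
    exact this ⟨x, rfl⟩
  have hfin : Finite (Cong' p (L.length + 1) e) := inferInstance
  haveI : Fact p.Prime := ⟨hp⟩
  refine ⟨Cong' p (L.length + 1) e, inferInstance, f0.codRestrict _ hmem,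
    (IsPGroup.iff_card.1 (cong'_isPGroup p _ _)), ?_⟩
  intro h
  have h4 : f0 w = 1 := congrArg Subtype.val h
  have h5 : red ((rep' (p : ℤ) hc w : (Matrix _ _ ℤ)ˣ) : Matrix _ _ ℤ) = 1 := congrArg Units.val h4
  have h6 := congrFun (congrFun h5 i) j
  apply hnd
  rw [← ZMod.intCast_zmod_eq_zero_iff_dvd, hcdef]
  push_cast
  have h7 : red ((rep' (p : ℤ) hc w : (Matrix _ _ ℤ)ˣ) : Matrix _ _ ℤ) i j =
    (((rep' (p : ℤ) hc w : (Matrix _ _ ℤ)ˣ) : Matrix _ _ ℤ) i j : ZMod (p ^ e)) := rfl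
  rw [← h7, h6]
  by_cases hd : i = j
  · subst hd; simp
  · simp [Matrix.one_apply, hd]

end Pool.Agent.X201.KW
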