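import Pool.Agent.X201.KW.Wr

/-! The Magnus embedding of `F/[N,N]`. -/

set_option autoImplicit false

namespace Pool.Agent.X201.KW

open Wr

section mag

variable {X Q : Type} [Group Q] (π : FreeGroup X →* Q)

/-- the Magnus homomorphism -/
noncomputable def mag : FreeGroup X →* Wr (X →₀ ℤ) Q :=
  FreeGroup.lift fun x => ⟨Finsupp.single 1 (Finsupp.single x 1), π (FreeGroup.of x)⟩

theorem mag_a (s : FreeGroup X) : (mag π s).a = π s := by
  have h : (Wr.proj : Wr (X →₀ ℤ) Q →* Q).comp (mag π) = π := by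
    refine FreeGroup.ext_hom _ _ fun x => ?_
    simp [mag]
  exact DFunLike.congr_fun h s

theorem mag_ker (hπ : Function.Surjective π) (s : FreeGroup X) (hs : mag π s = 1) :
    s ∈ ⁅π.ker, π.ker⁆ := by
  classical
  let σ : Q → FreeGroup X := Function.surjInv hπ
  have hσ : ∀ q, π (σ q) = q := Function.surjInv_eq hπ
  have hmem : ∀ (q : Q) (t : FreeGroup X), σ q * t * (σ (q * π t))⁻¹ ∈ π.ker := by
    intro q t
    rw [MonoidHom.mem_ker, map_mul, map_mul, map_inv, hσ, hσ, mul_inv_cancel]
  let cl : Q → FreeGroup X → Additive (Abelianization π.ker) := fun q t =>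
    Additive.ofMul (Abelianization.of ⟨σ q * t * (σ (q * π t))⁻¹, hmem q t⟩)
  let Φ : (Q →₀ (X →₀ ℤ)) →+ Additive (Abelianization π.ker) :=
    Finsupp.liftAddHom fun q => Finsupp.liftAddHom fun x =>
      zmultiplesHom (Additive (Abelianization π.ker)) (cl q (FreeGroup.of x))
  have hcl_mul : ∀ q t t', cl q (t * t') = cl q t + cl (q * π t) t' := by
    intro q t t'
    show Additive.ofMul (Abelianization.of _) = Additive.ofMul (Abelianization.of _) +
      Additive.ofMul (Abelianization.of _)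
    rw [← ofMul_mul, ← map_mul]
    refine congrArg (fun z => Additive.ofMul (Abelianization.of z)) (Subtype.ext ?_)
    show σ q * (t * t') * (σ (q * π (t * t')))⁻¹ = σ q * t * (σ (q * π t))⁻¹ *
      (σ (q * π t) * t' * (σ (q * π t * π t'))⁻¹)
    rw [map_mul, ← mul_assoc q]
    group
  have hP : ∀ t : FreeGroup X, ∀ q : Q, Φ (sh q (mag π t).f) = cl q t := by
    intro t
    have hone : ∀ q, cl q 1 = 0 := by
      intro q
      have h := hcl_mul q 1 1
      rw [mul_one, map_one, mul_one] at h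
      exact left_eq_add.1 h
    induction t using FreeGroup.induction_on with
    | C1 =>
      intro q
      rw [map_one, one_f, sh_zero, map_zero, hone]
    | of x =>
      intro q
      have h1 : (mag π (FreeGroup.of x)).f = Finsupp.single 1 (Finsupp.single x 1) := by
        simp [mag]
      have h2 : sh q (Finsupp.single (1 : Q) (Finsupp.single x (1 : ℤ))) =
          Finsupp.single (q * 1) (Finsupp.single x 1) := Finsupp.mapDomain_single
      have h3 : Φ (Finsupp.single (q * 1) (Finsupp.single x 1)) =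
          cl (q * 1) (FreeGroup.of x) := by
        show Finsupp.liftAddHom _ (Finsupp.single (q * 1) (Finsupp.single x 1)) = _
        rw [Finsupp.liftAddHom_apply_single, Finsupp.liftAddHom_apply_single]
        simp
      show Φ (sh q (mag π (FreeGroup.of x)).f) = cl q (FreeGroup.of x)
      rw [h1, h2, h3, mul_one]
    | inv_of x ih =>
      intro q
      have h1 := ih (q * (π (FreeGroup.of x))⁻¹)
      have h2 := hcl_mul (q * (π (FreeGroup.of x))⁻¹) (FreeGroup.of x) (FreeGroup.of x)⁻¹
      rw [mul_inv_cancel, hone, inv_mul_cancel_right] at h2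
      have h3 : (mag π (FreeGroup.of x)⁻¹).f = -sh (π (FreeGroup.of x))⁻¹ (mag π (FreeGroup.of x)).f := by
        rw [map_inv, inv_f, mag_a]
      show Φ (sh q (mag π (FreeGroup.of x)⁻¹).f) = cl q (FreeGroup.of x)⁻¹
      rw [h3, sh_neg, ← sh_mul, map_neg, h1]
      exact (eq_neg_of_add_eq_zero_right h2.symm).symm
    | mul x y hx hy =>
      intro q
      rw [map_mul, mul_f, sh_add, ← sh_mul, map_add, mag_a, hx, hy, hcl_mul]
  have hker : s ∈ π.ker := by
    rw [MonoidHom.mem_ker, ← mag_a, hs, one_a]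
  have h1 := hP s 1
  rw [hs, one_f, sh_zero, map_zero] at h1
  have hs1 : π s = 1 := hker
  have h2 : Abelianization.of (⟨σ 1 * s * (σ (1 * π s))⁻¹, hmem 1 s⟩ : π.ker) = 1 := by
    exact congrArg Additive.toMul h1.symm
  let u : π.ker := ⟨σ 1, by rw [MonoidHom.mem_ker, hσ]⟩
  have h3 : (⟨σ 1 * s * (σ (1 * π s))⁻¹, hmem 1 s⟩ : π.ker) = u * ⟨s, hker⟩ * u⁻¹ := by
    apply Subtype.ext
    show σ 1 * s * (σ (1 * π s))⁻¹ = σ 1 * s * (σ 1)⁻¹
    rw [hs1, mul_one]
  rw [h3, map_mul, map_mul, map_inv, mul_comm, inv_mul_cancel_left] at h2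
  have h4 : (⟨s, hker⟩ : π.ker) ∈ commutator π.ker := (QuotientGroup.eq_one_iff _).1 h2
  have h5 : s ∈ (commutator π.ker).map π.ker.subtype := ⟨⟨s, hker⟩, h4, rfl⟩
  rw [commutator_def, Subgroup.map_commutator, ← MonoidHom.range_eq_map, Subgroup.range_subtype]
    at h5
  exact h5

end mag

/-- the Magnus embedding of `G/[N,N]`, `G` a free group -/
theorem magnus (G : Type) [Group G] [IsFreeGroup G] (N : Subgroup G) [N.Normal] :
    ∃ Θ : G →* Wr (IsFreeGroup.Generators G →₀ ℤ) (G ⧸ N),
      (∀ g, (Θ g).a = QuotientGroup.mk g) ∧ ∀ g, Θ g = 1 → g ∈ ⁅N, N⁆ := by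
  let e := IsFreeGroup.toFreeGroup G
  let π : FreeGroup (IsFreeGroup.Generators G) →* G ⧸ N := (QuotientGroup.mk' N).comp
    (e.symm : FreeGroup (IsFreeGroup.Generators G) →* G)
  have hπ : Function.Surjective π := (QuotientGroup.mk'_surjective N).comp e.symm.surjective
  refine ⟨(mag π).comp (e : G →* FreeGroup (IsFreeGroup.Generators G)), ?_, ?_⟩
  · intro g
    show (mag π (e g)).a = _
    rw [mag_a]
    show QuotientGroup.mk' N (e.symm (e g)) = _
    rw [MulEquiv.symm_apply_apply]
    rfl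
  · intro g hg
    have h1 := mag_ker π hπ (e g) hg
    have h2 : e.symm (e g) ∈ (⁅π.ker, π.ker⁆).map
        (e.symm : FreeGroup (IsFreeGroup.Generators G) →* G) := ⟨e g, h1, rfl⟩
    rw [MulEquiv.symm_apply_apply, Subgroup.map_commutator] at h2
    have h3 : π.ker.map (e.symm : FreeGroup (IsFreeGroup.Generators G) →* G) ≤ N := by
      rintro _ ⟨x, hx, rfl⟩
      exact (QuotientGroup.eq_one_iff _).1 hx
    exact Subgroup.commutator_mono h3 h3 h2

end Pool.Agent.X201.KW
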