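import Pool.Agent.X201.KW.Key
import Pool.Agent.X201.KW.Mag

/-! Free solvable groups are residually finite `p`-groups. -/

set_option autoImplicit false

namespace Pool.Agent.X201.KW

open Wr

/-- functoriality in the base -/
noncomputable def mapV {V V' Q : Type} [AddCommGroup V] [AddCommGroup V'] [Group Q] (ν : V →+ V') :
    Wr V Q →* Wr V' Q where
  toFun p := ⟨Finsupp.mapRange.addMonoidHom ν p.f, p.a⟩
  map_one' := by
    ext1
    · show Finsupp.mapRange.addMonoidHom ν (0 : Q →₀ V) = 0
      exact map_zero _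
    · rfl
  map_mul' p q := by
    ext1
    · show Finsupp.mapRange.addMonoidHom ν (p.f + sh p.a q.f) =
        Finsupp.mapRange.addMonoidHom ν p.f + sh p.a (Finsupp.mapRange.addMonoidHom ν q.f)
      rw [map_add]
      congr 1
      exact (Finsupp.mapDomain_mapRange (fun y => p.a * y) q.f ν (map_zero ν) (map_add ν)).symm
    · rfl

theorem card_wr {V P : Type} [AddCommGroup V] [Group P] [Finite P] :
    Nat.card (Wr V P) = Nat.card V ^ Nat.card P * Nat.card P := by
  have e : Wr V P ≃ (P → V) × P :=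
    { toFun := fun p => (fun x => p.f x, p.a)
      invFun := fun z => ⟨Finsupp.equivFunOnFinite.symm z.1, z.2⟩
      left_inv := fun p => by
        ext1
        · ext x
          rfl
        · rfl
      right_inv := fun z => rfl }
  rw [Nat.card_congr e, Nat.card_prod, Nat.card_fun]

theorem resQ_wr {p : ℕ} (hp : p.Prime) {X Q : Type} [Group Q] (hQ : ResQ p Q) :
    ResQ p (Wr (X →₀ ℤ) Q) := by
  classical
  intro w hw
  by_cases ha : w.a = 1
  · have hf : w.f ≠ 0 := fun hf => hw (Wr.ext hf ha)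
    obtain ⟨y, hy⟩ := Finsupp.ne_iff.1 hf
    rw [Finsupp.zero_apply] at hy
    obtain ⟨x, hx⟩ := Finsupp.ne_iff.1 hy
    rw [Finsupp.zero_apply] at hx
    obtain ⟨P, _, π, ⟨k, hk⟩, -, hπ⟩ := hQ.finset hp (w.f.support.image fun z => y⁻¹ * z)
    have hfin : Finite P :=
      Nat.finite_of_card_ne_zero (by rw [hk]; exact pow_ne_zero _ hp.ne_zero)
    set c : ℤ := w.f y x with hc
    set m : ℕ := c.natAbs with hm
    have hnd : ¬ ((p ^ m : ℕ) : ℤ) ∣ c := by
      intro hd
      have h5 := Int.natAbs_dvd_natAbs.mpr hd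
      rw [Int.natAbs_natCast] at h5
      have h6 := Nat.le_of_dvd (Int.natAbs_pos.mpr hx) h5
      have h7 : m < p ^ m := Nat.lt_pow_self hp.one_lt
      omega
    let ν : (X →₀ ℤ) →+ ZMod (p ^ m) :=
      (Int.castRingHom (ZMod (p ^ m))).toAddMonoidHom.comp (Finsupp.applyAddHom x)
    refine ⟨Wr (ZMod (p ^ m)) P, inferInstance, (mapV ν).comp (Wr.map π), ?_, ?_⟩
    · refine ⟨m * p ^ k + k, ?_⟩
      rw [card_wr, Nat.card_zmod, hk, pow_add, pow_mul]
    · intro h
      have h1 : Finsupp.mapRange.addMonoidHom ν (Finsupp.mapDomain π w.f) = 0 :=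
        congrArg Wr.f h
      have h2 := DFunLike.congr_fun h1 (π y)
      have h3 : ν (Finsupp.mapDomain π w.f (π y)) = 0 := h2
      have h4 : Finsupp.mapDomain π w.f (π y) = w.f y := by
        rw [mapDomain_eval, Finset.sum_eq_single y]
        · rw [if_pos rfl]
        · intro z hz hzy
          rw [if_neg]
          intro hzz
          apply hzy
          have h5 := hπ (y⁻¹ * z) (Finset.mem_image_of_mem _ hz)
            (by rw [map_mul, map_inv, hzz, inv_mul_cancel])
          rw [inv_mul_eq_one] at h5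
          exact h5.symm
        · intro hy'
          rw [if_pos rfl]
          exact Finsupp.notMem_support_iff.1 hy'
      rw [h4] at h3
      apply hnd
      rw [← ZMod.intCast_zmod_eq_zero_iff_dvd]
      exact h3
  · obtain ⟨P, _, π, hk, hπ⟩ := hQ w.a ha
    exact ⟨P, inferInstance, π.comp Wr.proj, hk, hπ⟩

/-- the groups `G / [N,N]` -/
theorem resQ_comm {p : ℕ} (hp : p.Prime) (G : Type) [Group G] [IsFreeGroup G] (N : Subgroup G)
    [N.Normal] (hN : ResQ p (G ⧸ N)) : ResQ p (G ⧸ ⁅N, N⁆) := by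
  obtain ⟨Θ, h1, h2⟩ := magnus G N
  intro x
  obtain ⟨x, rfl⟩ := QuotientGroup.mk_surjective x
  intro hx
  have h3 : Θ x ≠ 1 := fun h => hx ((QuotientGroup.eq_one_iff _).2 (h2 x h))
  obtain ⟨P, _, ρ, hk, hρ⟩ := resQ_wr hp hN (Θ x) h3
  have h4 : ⁅N, N⁆ ≤ (ρ.comp Θ).ker := by
    rw [Subgroup.commutator_le]
    intro u hu v hv
    have hu' : (Θ u).a = 1 := by rw [h1]; exact (QuotientGroup.eq_one_iff _).2 hu
    have hv' : (Θ v).a = 1 := by rw [h1]; exact (QuotientGroup.eq_one_iff _).2 hv
    have h5 : Θ u * Θ v = Θ v * Θ u := by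
      ext1
      · rw [mul_f, mul_f, hu', hv', sh_one, sh_one, add_comm]
      · rw [mul_a, mul_a, hu', hv']
    rw [MonoidHom.mem_ker, MonoidHom.comp_apply, map_commutatorElement,
      commutatorElement_eq_one_iff_mul_comm.2 h5, map_one]
  exact ⟨P, inferInstance, QuotientGroup.lift _ (ρ.comp Θ) h4, hk, hρ⟩

/-- free solvable groups -/
theorem resQ_derived {p : ℕ} (hp : p.Prime) (G : Type) [Group G] [IsFreeGroup G] (j : ℕ) :
    ResQ p (G ⧸ derivedSeries G j) := by
  induction j with
  | zero =>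
    intro x hx
    exfalso
    apply hx
    obtain ⟨x, rfl⟩ := QuotientGroup.mk_surjective x
    exact (QuotientGroup.eq_one_iff _).2 (Subgroup.mem_top x)
  | succ j ih => exact resQ_comm hp G (derivedSeries G j) ih

end Pool.Agent.X201.KW
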