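import Pool.Agent.X201.KW.Key

/-! Abelian top groups: elements outside of the base group. -/

set_option autoImplicit false

open Monoid
open scoped IsMulCommutative
open Pool.Agent.TH63.KQ (eta power shift)

namespace Pool.Agent.X201.KW

open Wr

section kill

variable {V Q : Type} [AddCommGroup V] [CommGroup Q]

theorem sh_sub (a : Q) (f f' : Q →₀ V) : sh a (f - f') = sh a f - sh a f' := by
  rw [sub_eq_add_neg, sh_add, sh_neg, ← sub_eq_add_neg]

/-- the submodule generated by the differences `f - k_l f` -/
noncomputable def Dk {r : ℕ} (k : Fin r → Q) : AddSubgroup (Q →₀ V) where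
  carrier := {x | ∃ b : Fin r → (Q →₀ V), ∑ l, (b l - sh (k l) (b l)) = x}
  add_mem' := by
    rintro _ _ ⟨b, rfl⟩ ⟨c, rfl⟩
    refine ⟨fun l => b l + c l, ?_⟩
    rw [← Finset.sum_add_distrib]
    refine Finset.sum_congr rfl fun l _ => ?_
    show b l + c l - sh (k l) (b l + c l) = _
    rw [sh_add]
    exact add_sub_add_comm _ _ _ _
  zero_mem' := ⟨fun _ => 0, by simp [sh_zero]⟩
  neg_mem' := by
    rintro _ ⟨b, rfl⟩
    refine ⟨fun l => -b l, ?_⟩
    rw [← Finset.sum_neg_distrib]
    refine Finset.sum_congr rfl fun l _ => ?_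
    show -b l - sh (k l) (-b l) = _
    rw [sh_neg, neg_sub, sub_neg_eq_add, add_comm, sub_eq_add_neg]

theorem sh_single (a y : Q) (v : V) : sh a (Finsupp.single y v) = Finsupp.single (a * y) v :=
  Finsupp.mapDomain_single

theorem single_mem {r : ℕ} (k : Fin r → Q) (l : Q) (hl : l ∈ Subgroup.closure (Set.range k)) :
    ∀ (y : Q) (v : V), Finsupp.single (l * y) v - Finsupp.single y v ∈ Dk k := by
  classical
  induction hl using Subgroup.closure_induction with
  | mem x hx =>
    obtain ⟨i, rfl⟩ := hx
    intro y v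
    refine ⟨fun l => if l = i then -Finsupp.single y v else 0, ?_⟩
    rw [Finset.sum_eq_single i]
    · show (if i = i then -Finsupp.single y v else 0) -
        sh (k i) (if i = i then -Finsupp.single y v else 0) = _
      rw [if_pos rfl, sh_neg, sh_single, sub_neg_eq_add, add_comm, sub_eq_add_neg]
    · intro l _ hl
      show (if l = i then -Finsupp.single y v else 0) -
        sh (k l) (if l = i then -Finsupp.single y v else 0) = 0
      rw [if_neg hl, sh_zero, sub_zero]
    · intro h
      exact absurd (Finset.mem_univ _) h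
  | one =>
    intro y v
    rw [one_mul, sub_self]
    exact (Dk k).zero_mem
  | mul a b _ _ ha hb =>
    intro y v
    have h := (Dk k).add_mem (ha (b * y) v) (hb y v)
    rw [← mul_assoc] at h
    have e : Finsupp.single (a * b * y) v - Finsupp.single y v =
        Finsupp.single (a * b * y) v - Finsupp.single (b * y) v +
          (Finsupp.single (b * y) v - Finsupp.single y v) := by abel
    rw [e]
    exact h
  | inv a _ ha =>
    intro y v
    have h := (Dk k).neg_mem (ha (a⁻¹ * y) v)
    rw [mul_inv_cancel_left] at h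
    rw [neg_sub] at h
    exact h

theorem kill {r : ℕ} (k : Fin r → Q) (F : Q →₀ V)
    (hF : Finsupp.mapDomain
      (fun y => (QuotientGroup.mk y : Q ⧸ Subgroup.closure (Set.range k))) F = 0) :
    ∃ b : Fin r → (Q →₀ V), ∑ l, (b l - sh (k l) (b l)) = F := by
  classical
  have h1 : ∀ F : Q →₀ V, Finsupp.mapDomain
      (fun y => (QuotientGroup.mk y : Q ⧸ Subgroup.closure (Set.range k)).out) F - F ∈ Dk k := by
    intro F
    induction F using Finsupp.induction_linear with
    | zero =>
      rw [Finsupp.mapDomain_zero, sub_zero]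
      exact (Dk k).zero_mem
    | add f g hf hg =>
      rw [Finsupp.mapDomain_add, add_sub_add_comm]
      exact (Dk k).add_mem hf hg
    | single y v =>
      rw [Finsupp.mapDomain_single]
      obtain ⟨h, hh⟩ := QuotientGroup.mk_out_eq_mul (Subgroup.closure (Set.range k)) y
      rw [hh, mul_comm]
      exact single_mem k h h.2 y v
  have h2 := h1 F
  have h3 : Finsupp.mapDomain
      (fun y => (QuotientGroup.mk y : Q ⧸ Subgroup.closure (Set.range k)).out) F = 0 := by
    have h4 : Finsupp.mapDomain
        (fun y => (QuotientGroup.mk y : Q ⧸ Subgroup.closure (Set.range k)).out) F =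
        Finsupp.mapDomain (fun z : Q ⧸ Subgroup.closure (Set.range k) => z.out)
          (Finsupp.mapDomain
            (fun y => (QuotientGroup.mk y : Q ⧸ Subgroup.closure (Set.range k))) F) := by
      rw [← Finsupp.mapDomain_comp]
      rfl
    rw [h4, hF, Finsupp.mapDomain_zero]
  rw [h3, zero_sub] at h2
  have h5 := (Dk k).neg_mem h2
  rw [neg_neg] at h5
  exact h5

end kill

theorem key2 {q : ℕ} (hq : q.Prime) {V Q : Type} [AddCommGroup V] [CommGroup Q] (n : ℕ)
    (w : Fin n → Coprod (Wr V Q) (FreeGroup (Fin n)))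
    (hcop : IsCoprime
      (Matrix.of fun i j : Fin n => Multiplicative.toAdd (eta (Wr V Q) n i (w j))).det (q : ℤ))
    (r : ℕ) (g : Fin r → Wr V Q)
    (hL : ResQ q (Q ⧸ Subgroup.closure (Set.range fun i => (g i).a)))
    (hg : ∃ h : Fin r → (Coprod (Wr V Q) (FreeGroup (Fin n)) ⧸
        Subgroup.normalClosure (Set.range w)),
      (List.ofFn fun i => h i * QuotientGroup.mk' (Subgroup.normalClosure (Set.range w))
        (Coprod.inl (g i)) * (h i)⁻¹).prod = 1) :
    ∃ x : Fin r → Wr V Q, (List.ofFn fun i => x i * g i * (x i)⁻¹).prod = 1 := by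
  classical
  set L := Subgroup.closure (Set.range fun i => (g i).a) with hLdef
  -- the top component
  have htop : (List.ofFn fun i => (g i).a).prod = 1 := by
    let w' : Fin n → Coprod Q (FreeGroup (Fin n)) := fun j =>
      Coprod.map (Wr.proj : Wr V Q →* Q) (MonoidHom.id _) (w j)
    have heta : ∀ i j, eta Q n i (w' j) = eta (Wr V Q) n i (w j) := by
      intro i j
      have h1 : (eta Q n i).comp (Coprod.map (Wr.proj : Wr V Q →* Q) (MonoidHom.id _)) =
          eta (Wr V Q) n i := by
        apply Coprod.hom_ext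
        · refine MonoidHom.ext fun u => ?_
          simp [eta]
        · refine FreeGroup.ext_hom _ _ fun u => ?_
          simp [eta]
      exact DFunLike.congr_fun h1 (w j)
    have hcop' : IsCoprime (Matrix.of fun i j : Fin n =>
        Multiplicative.toAdd (eta Q n i (w' j))).det (q : ℤ) := by
      have e : (Matrix.of fun i j : Fin n => Multiplicative.toAdd (eta Q n i (w' j))) =
          Matrix.of fun i j : Fin n => Multiplicative.toAdd (eta (Wr V Q) n i (w j)) := by
        ext i j
        exact congrArg Multiplicative.toAdd (heta i j)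
      rw [e]
      exact hcop
    have hle : Subgroup.normalClosure (Set.range w) ≤
        (Subgroup.normalClosure (Set.range w')).comap
          (Coprod.map (Wr.proj : Wr V Q →* Q) (MonoidHom.id _)) := by
      refine Subgroup.normalClosure_le_normal ?_
      rintro _ ⟨j, rfl⟩
      exact Subgroup.subset_normalClosure ⟨j, rfl⟩
    let β := QuotientGroup.map (Subgroup.normalClosure (Set.range w))
      (Subgroup.normalClosure (Set.range w'))
      (Coprod.map (Wr.proj : Wr V Q →* Q) (MonoidHom.id _)) hle
    obtain ⟨h, hh⟩ := hg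
    obtain ⟨y, hy⟩ := power Q ⊤ inferInstance (fun a _ b _ => mul_comm a b) q hq n w' hcop'
      ⟨0, by simp⟩ r (fun i => (g i).a) ⟨fun i => β (h i), by
        have h3 := congrArg β hh
        rw [map_one, map_list_prod, List.map_ofFn] at h3
        rw [← h3]
        congr 2
        funext i
        simp only [Function.comp_apply, map_mul, map_inv]
        rfl⟩
    rw [← hy]
    congr 2
    funext i
    rw [mul_comm (y i), mul_inv_cancel_right]
  -- the quotient
  obtain ⟨x, hx⟩ := key hq hL (Wr.map (QuotientGroup.mk' L) : Wr V Q →* Wr V (Q ⧸ L))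
    (fun z => by
      obtain ⟨z, rfl⟩ := QuotientGroup.mk_surjective z
      exact ⟨⟨0, z⟩, rfl⟩) n w hcop r g
    (fun i => by
      show (QuotientGroup.mk (g i).a : Q ⧸ L) = 1
      exact (QuotientGroup.eq_one_iff _).2 (Subgroup.subset_closure ⟨i, rfl⟩)) hg
  let k : Fin r → Wr V Q := fun i => x i * g i * (x i)⁻¹
  have hka : ∀ i, (k i).a = (g i).a := by
    intro i
    show (x i).a * (g i).a * ((x i).a)⁻¹ = (g i).a
    rw [mul_comm (x i).a, mul_inv_cancel_right]
  set p : Wr V Q := (List.ofFn k).prod with hp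
  have hpa : p.a = 1 := by
    have h1 : p.a = (List.ofFn fun i => (k i).a).prod := by
      rw [hp]
      have h2 := map_list_prod (Wr.proj : Wr V Q →* Q) (List.ofFn k)
      rw [List.map_ofFn] at h2
      exact h2
    rw [h1]
    simp_rw [hka]
    exact htop
  have hpf : Finsupp.mapDomain
      (fun y => (QuotientGroup.mk y : Q ⧸ Subgroup.closure (Set.range fun i => (g i).a))) (-p.f) =
      0 := by
    have h1 := congrArg Wr.f hx
    have h2 : Finsupp.mapDomain (fun y => (QuotientGroup.mk y : Q ⧸ L)) p.f = 0 := h1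
    have h3 := Finsupp.mapDomain_add (f := fun y => (QuotientGroup.mk y : Q ⧸ L)) (v₁ := p.f)
      (v₂ := -p.f)
    rw [add_neg_cancel, Finsupp.mapDomain_zero, h2, zero_add] at h3
    exact h3.symm
  obtain ⟨b, hb⟩ := kill (fun i => (g i).a) (-p.f) hpf
  let A : Subgroup (Wr V Q) := (Wr.proj : Wr V Q →* Q).ker
  have hAc : IsMulCommutative A := isMulCommutative_iff.2 fun a b => Subtype.ext (by
    have ha : (a : Wr V Q).a = 1 := a.2
    have hb : (b : Wr V Q).a = 1 := b.2
    ext1
    · show (a : Wr V Q).f + sh (a : Wr V Q).a (b : Wr V Q).f =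
        (b : Wr V Q).f + sh (b : Wr V Q).a (a : Wr V Q).f
      rw [ha, hb, sh_one, sh_one, add_comm]
    · show (a : Wr V Q).a * (b : Wr V Q).a = (b : Wr V Q).a * (a : Wr V Q).a
      rw [mul_comm])
  let a : Fin r → A := fun l => ⟨⟨b l, 1⟩, rfl⟩
  obtain ⟨u, hu⟩ := shift A r k a
  let φ : A →* Multiplicative (Q →₀ V) :=
    { toFun := fun z => Multiplicative.ofAdd (z : Wr V Q).f
      map_one' := rfl
      map_mul' := by
        intro z z'
        have hz : (z : Wr V Q).a = 1 := z.2
        refine congrArg Multiplicative.ofAdd ?_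
        show (z : Wr V Q).f + sh (z : Wr V Q).a (z' : Wr V Q).f = (z : Wr V Q).f + (z' : Wr V Q).f
        rw [hz, sh_one] }
  set Z : A := ∏ l, a l * (MulAut.conjNormal (k l) (a l))⁻¹ with hZ
  have hZf : (Z : Wr V Q).f = -p.f := by
    have h1 : Multiplicative.toAdd (φ Z) = -p.f := by
      rw [hZ, map_prod, toAdd_prod, ← hb]
      refine Finset.sum_congr rfl fun l _ => ?_
      rw [map_mul, map_inv, toAdd_mul, toAdd_inv, ← sub_eq_add_neg]
      have h2 : Multiplicative.toAdd (φ (MulAut.conjNormal (k l) (a l))) =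
          (k l * (a l : Wr V Q) * (k l)⁻¹).f := rfl
      rw [h2, conj_f _ _ (rfl : (a l : Wr V Q).a = 1), hka]
      rfl
    exact h1
  have hZp : (Z : Wr V Q) * p = 1 := by
    have hZa : (Z : Wr V Q).a = 1 := Z.2
    ext1
    · rw [mul_f, hZa, sh_one, hZf, neg_add_cancel, one_f]
    · rw [mul_a, hZa, hpa, one_mul, one_a]
  rw [← hp, hZp] at hu
  refine ⟨fun l => (u l : Wr V Q) * x l, ?_⟩
  rw [← hu]
  congr 2
  funext l
  show (u l : Wr V Q) * x l * g l * ((u l : Wr V Q) * x l)⁻¹ =
    (u l : Wr V Q) * (x l * g l * (x l)⁻¹) * (u l : Wr V Q)⁻¹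
  group

end Pool.Agent.X201.KW
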