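import Pool.Agent.X201.KW.Sol

/-! Kervaire extensions of groups which map to wreath products `V ≀ Q`, for systems whose relative
presentation over `Q` is aspherical. -/

set_option autoImplicit false

open Monoid

namespace Pool.Agent.X201.KW

open Wr

section conv

variable {V P : Type} [AddCommGroup V] [Group P]

/-- the action of the group ring on functions -/
noncomputable def conv (c : P →₀ ℤ) (f : P →₀ V) : P →₀ V := c.sum fun h m => m • sh h f

theorem conv_add (c c' : P →₀ ℤ) (f : P →₀ V) : conv (c + c') f = conv c f + conv c' f := by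
  classical
  exact Finsupp.sum_add_index' (fun h => zero_smul ℤ _) (fun h m m' => add_smul m m' _)

theorem conv_zero (f : P →₀ V) : conv (0 : P →₀ ℤ) f = 0 := Finsupp.sum_zero_index

theorem conv_neg (c : P →₀ ℤ) (f : P →₀ V) : conv (-c) f = -conv c f := by
  have h := conv_add c (-c) f
  rw [add_neg_cancel, conv_zero] at h
  exact (neg_eq_of_add_eq_zero_right h.symm).symm

theorem conv_single (h : P) (m : ℤ) (f : P →₀ V) : conv (Finsupp.single h m) f = m • sh h f :=
  Finsupp.sum_single_index (zero_smul ℤ _)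

theorem sh_zsmul (a : P) (m : ℤ) (f : P →₀ V) : sh a (m • f) = m • sh a f :=
  Finsupp.mapDomain_smul m f

theorem sh_conv (a : P) (c : P →₀ ℤ) (f : P →₀ V) : sh a (conv c f) = conv (sh a c) f := by
  induction c using Finsupp.induction_linear with
  | zero => rw [sh_zero, conv_zero, sh_zero]
  | add c c' h h' => rw [conv_add, sh_add, sh_add, conv_add, h, h']
  | single h m =>
    have e : sh a (Finsupp.single h m) = Finsupp.single (a * h) m := Finsupp.mapDomain_single
    rw [e, conv_single, conv_single, sh_zsmul, sh_mul]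

theorem mapRange_sh {V' : Type} [AddCommGroup V'] (ν : V →+ V') (a : P) (f : P →₀ V) :
    Finsupp.mapRange.addMonoidHom ν (sh a f) = sh a (Finsupp.mapRange.addMonoidHom ν f) :=
  (Finsupp.mapDomain_mapRange (fun y => a * y) f ν (map_zero ν) (map_add ν)).symm

theorem mapRange_conv {V' : Type} [AddCommGroup V'] (ν : V →+ V') (c : P →₀ ℤ) (f : P →₀ V) :
    Finsupp.mapRange.addMonoidHom ν (conv c f) = conv c (Finsupp.mapRange.addMonoidHom ν f) := by
  induction c using Finsupp.induction_linear with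
  | zero => rw [conv_zero, conv_zero, map_zero]
  | add c c' h h' => rw [conv_add, conv_add, map_add, h, h']
  | single h m => rw [conv_single, conv_single, map_zsmul, mapRange_sh]

end conv

section asp

variable {Q : Type} [Group Q] {n : ℕ} (v : Fin n → Coprod Q (FreeGroup (Fin n)))

/-- the group `P = Q * F(t_0, ..., t_(n-1)) / << v_0, ..., v_(n-1) >>` -/
abbrev PP := Coprod Q (FreeGroup (Fin n)) ⧸ Subgroup.normalClosure (Set.range v)

/-- the map `Q → P` -/
def toPP : Q →* PP v := (QuotientGroup.mk' (Subgroup.normalClosure (Set.range v))).comp Coprod.inl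

/-- the homomorphism `Q * F(t_0, ..., t_(n-1)) → ℤ^n ≀ P` whose first coordinate consists of the Fox
derivatives with respect to the unknowns -/
noncomputable def fox : Coprod Q (FreeGroup (Fin n)) →* Wr (Fin n → ℤ) (PP v) :=
  Coprod.lift
    ((MonoidHom.mk' (fun y : PP v => (⟨0, y⟩ : Wr (Fin n → ℤ) (PP v))) (fun y y' => by
      ext1
      · show (0 : PP v →₀ (Fin n → ℤ)) = 0 + sh y 0
        rw [sh_zero, add_zero]
      · rfl)).comp (toPP v))
    (FreeGroup.lift fun i => ⟨Finsupp.single 1 (Pi.single i 1),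
      QuotientGroup.mk' (Subgroup.normalClosure (Set.range v)) (Coprod.inr (FreeGroup.of i))⟩)

/-- the relative presentation `⟨Q, t_0, ..., t_(n-1) | v_0, ..., v_(n-1)⟩` is aspherical: the rows of
the matrix of the Fox derivatives `∂v_j/∂t_i` in `ℤP` are linearly independent over `ℤP` -/
def Asph : Prop :=
  ∀ c : Fin n → (PP v →₀ ℤ), ∑ j, conv (c j) (fox v (v j)).f = 0 → c = 0

end asp

section main

variable {V Q G : Type} [AddCommGroup V] [Group Q] [Group G]

/-- the system over `Q` -/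
noncomputable def down (Θ : G →* Wr V Q) {n : ℕ} (w : Fin n → Coprod G (FreeGroup (Fin n))) :
    Fin n → Coprod Q (FreeGroup (Fin n)) := fun j =>
  Coprod.map ((Wr.proj : Wr V Q →* Q).comp Θ) (MonoidHom.id (FreeGroup (Fin n))) (w j)

theorem key3_core (Θ : G →* Wr V Q) (n : ℕ)
    (w : Fin n → Coprod G (FreeGroup (Fin n)))
    (hasp : Asph (down Θ w))
    (r : ℕ) (g : Fin r → G) (hg0 : ∀ i, (Θ (g i)).a = 1)
    (hg : ∃ h : Fin r → (Coprod G (FreeGroup (Fin n)) ⧸ Subgroup.normalClosure (Set.range w)),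
      (List.ofFn fun i => h i * QuotientGroup.mk' (Subgroup.normalClosure (Set.range w))
        (Coprod.inl (g i)) * (h i)⁻¹).prod = 1) :
    ∃ m : Fin r → PP (down Θ w),
      ∑ i, Finsupp.mapDomain (fun y => m i * toPP (down Θ w) y) (Θ (g i)).f = 0 := by
  classical
  set v := down Θ w with hv
  let ι : Q →* PP v := toPP v
  let τ : Fin n → PP v := fun i =>
    QuotientGroup.mk' (Subgroup.normalClosure (Set.range v)) (Coprod.inr (FreeGroup.of i))
  let inl' : V →+ V × (Fin n → ℤ) := AddMonoidHom.inl V (Fin n → ℤ)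
  let Ψ : Coprod G (FreeGroup (Fin n)) →* Wr (V × (Fin n → ℤ)) (PP v) :=
    Coprod.lift (((mapV inl').comp (Wr.map ι)).comp Θ)
      (FreeGroup.lift fun i => ⟨Finsupp.single 1 (0, Pi.single i 1), τ i⟩)
  -- the second coordinate of Ψ
  have hΨa : ∀ u, (Ψ u).a = QuotientGroup.mk' (Subgroup.normalClosure (Set.range v))
      (Coprod.map ((Wr.proj : Wr V Q →* Q).comp Θ) (MonoidHom.id (FreeGroup (Fin n))) u) := by
    intro u
    have h1 : (Wr.proj : Wr (V × (Fin n → ℤ)) (PP v) →* PP v).comp Ψ =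
        (QuotientGroup.mk' (Subgroup.normalClosure (Set.range v))).comp
          (Coprod.map ((Wr.proj : Wr V Q →* Q).comp Θ) (MonoidHom.id (FreeGroup (Fin n)))) := by
      apply Coprod.hom_ext
      · refine MonoidHom.ext fun u => ?_
        rfl
      · refine FreeGroup.ext_hom _ _ fun u => ?_
        simp [Ψ, τ]
    exact DFunLike.congr_fun h1 u
  have hΨw : ∀ j, (Ψ (w j)).a = 1 := by
    intro j
    rw [hΨa]
    exact (QuotientGroup.eq_one_iff _).2 (Subgroup.subset_normalClosure ⟨j, rfl⟩)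
  -- the Fox derivatives
  have hfox : ∀ u, Finsupp.mapRange.addMonoidHom (AddMonoidHom.snd V (Fin n → ℤ)) (Ψ u).f =
      (fox v (Coprod.map ((Wr.proj : Wr V Q →* Q).comp Θ)
        (MonoidHom.id (FreeGroup (Fin n))) u)).f := by
    intro u
    have h1 : (mapV (AddMonoidHom.snd V (Fin n → ℤ))).comp Ψ =
        (fox v).comp
          (Coprod.map ((Wr.proj : Wr V Q →* Q).comp Θ) (MonoidHom.id (FreeGroup (Fin n)))) := by
      apply Coprod.hom_ext
      · refine MonoidHom.ext fun u => ?_
        ext1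
        · show Finsupp.mapRange.addMonoidHom (AddMonoidHom.snd V (Fin n → ℤ))
            (Finsupp.mapRange.addMonoidHom inl' (Finsupp.mapDomain ι (Θ u).f)) = 0
          ext z
          simp [inl']
        · rfl
      · refine FreeGroup.ext_hom _ _ fun u => ?_
        ext1
        · simp [Ψ, fox, mapV]
        · simp [Ψ, fox, mapV, τ]
    exact congrArg Wr.f (DFunLike.congr_fun h1 u)
  -- the normal subgroup
  let N : Subgroup (Wr (V × (Fin n → ℤ)) (PP v)) :=
    { carrier := {z | z.a = 1 ∧ ∃ c : Fin n → (PP v →₀ ℤ), z.f = ∑ j, conv (c j) (Ψ (w j)).f}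
      mul_mem' := by
        rintro z z' ⟨h1, c, hc⟩ ⟨h1', c', hc'⟩
        refine ⟨by rw [mul_a, h1, h1', one_mul], c + c', ?_⟩
        rw [mul_f, h1, sh_one, hc, hc', ← Finset.sum_add_distrib]
        refine Finset.sum_congr rfl fun j _ => ?_
        rw [Pi.add_apply, conv_add]
      one_mem' := ⟨rfl, 0, by
        rw [one_f]
        refine (Finset.sum_eq_zero fun j _ => ?_).symm
        rw [Pi.zero_apply, conv_zero]⟩
      inv_mem' := by
        rintro z ⟨h1, c, hc⟩
        refine ⟨by rw [inv_a, h1, inv_one], -c, ?_⟩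
        rw [inv_f, h1, inv_one, sh_one, hc, ← Finset.sum_neg_distrib]
        refine Finset.sum_congr rfl fun j _ => ?_
        rw [Pi.neg_apply, conv_neg] }
  have hNn : N.Normal := ⟨by
    rintro z ⟨h1, c, hc⟩ y
    refine ⟨conj_a y z h1, fun j => sh y.a (c j), ?_⟩
    rw [conj_f y z h1, hc]
    have e : sh y.a (∑ j, conv (c j) (Ψ (w j)).f) = ∑ j, sh y.a (conv (c j) (Ψ (w j)).f) :=
      map_sum (Finsupp.mapDomain.addMonoidHom (fun z => y.a * z)) _ _
    rw [e]
    refine Finset.sum_congr rfl fun j _ => ?_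
    rw [sh_conv]⟩
  have hle : Subgroup.normalClosure (Set.range w) ≤ N.comap Ψ := by
    have := hNn.comap Ψ
    refine Subgroup.normalClosure_le_normal ?_
    rintro _ ⟨j, rfl⟩
    refine ⟨hΨw j, Pi.single j (Finsupp.single 1 1), ?_⟩
    rw [Finset.sum_eq_single j]
    · rw [Pi.single_eq_same, conv_single, sh_one, one_smul]
    · intro i _ hi
      rw [Pi.single_eq_of_ne hi, conv_zero]
    · intro h
      exact absurd (Finset.mem_univ _) h
  obtain ⟨h, hh⟩ := hg
  choose s hs using fun i => QuotientGroup.mk'_surjective _ (h i)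
  have hmem : (List.ofFn fun i => s i * Coprod.inl (g i) * (s i)⁻¹).prod ∈
      Subgroup.normalClosure (Set.range w) := by
    rw [← QuotientGroup.eq_one_iff]
    show QuotientGroup.mk' (Subgroup.normalClosure (Set.range w)) _ = 1
    rw [map_list_prod, List.map_ofFn, ← hh]
    congr 2
    funext i
    simp only [Function.comp_apply, map_mul, map_inv, hs]
  obtain ⟨-, c, hc⟩ := hle hmem
  have hga : ∀ i, (Ψ (Coprod.inl (g i))).a = 1 := by
    intro i
    show ι (Θ (g i)).a = 1
    rw [hg0, map_one]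
  have hprod : (Ψ (List.ofFn fun i => s i * Coprod.inl (g i) * (s i)⁻¹).prod).f =
      ∑ i, sh (Ψ (s i)).a (Ψ (Coprod.inl (g i))).f := by
    rw [map_list_prod, List.map_ofFn]
    have e : (⇑Ψ ∘ fun i => s i * Coprod.inl (g i) * (s i)⁻¹) =
        fun i => Ψ (s i) * Ψ (Coprod.inl (g i)) * (Ψ (s i))⁻¹ := by
      funext i
      simp
    rw [e, (prod_ofFn _ fun i => conj_a _ _ (hga i)).2]
    refine Finset.sum_congr rfl fun i _ => ?_
    rw [conj_f _ _ (hga i)]
  rw [hprod] at hc
  -- the coefficients are zero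
  have hsnd := congrArg (Finsupp.mapRange.addMonoidHom (AddMonoidHom.snd V (Fin n → ℤ))) hc
  rw [map_sum, map_sum] at hsnd
  have hL : ∑ i, Finsupp.mapRange.addMonoidHom (AddMonoidHom.snd V (Fin n → ℤ))
      (sh (Ψ (s i)).a (Ψ (Coprod.inl (g i))).f) = 0 := by
    refine Finset.sum_eq_zero fun i _ => ?_
    have e : Finsupp.mapRange.addMonoidHom (AddMonoidHom.snd V (Fin n → ℤ))
        (Ψ (Coprod.inl (g i))).f = 0 := by
      show Finsupp.mapRange.addMonoidHom (AddMonoidHom.snd V (Fin n → ℤ))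
        (Finsupp.mapRange.addMonoidHom inl' (Finsupp.mapDomain ι (Θ (g i)).f)) = 0
      ext z
      simp [inl']
    rw [mapRange_sh, e, sh_zero]
  rw [hL] at hsnd
  have hc0 : c = 0 := by
    apply hasp
    rw [hsnd]
    refine Finset.sum_congr rfl fun j _ => ?_
    rw [mapRange_conv, hfox]
    rfl
  have hsum0 : ∑ i, sh (Ψ (s i)).a (Ψ (Coprod.inl (g i))).f = 0 := by
    rw [hc, hc0]
    refine Finset.sum_eq_zero fun j _ => ?_
    rw [Pi.zero_apply, conv_zero]
  have hfst := congrArg (Finsupp.mapRange.addMonoidHom (AddMonoidHom.fst V (Fin n → ℤ))) hsum0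
  rw [map_sum, map_zero] at hfst
  refine ⟨fun i => (Ψ (s i)).a, ?_⟩
  rw [← hfst]
  refine Finset.sum_congr rfl fun i _ => ?_
  rw [mapRange_sh]
  have e : Finsupp.mapRange.addMonoidHom (AddMonoidHom.fst V (Fin n → ℤ))
      (Ψ (Coprod.inl (g i))).f = Finsupp.mapDomain ι (Θ (g i)).f := by
    show Finsupp.mapRange.addMonoidHom (AddMonoidHom.fst V (Fin n → ℤ))
      (Finsupp.mapRange.addMonoidHom inl' (Finsupp.mapDomain ι (Θ (g i)).f)) = _
    ext z
    simp [inl']
  rw [e]
  show _ = Finsupp.mapDomain (fun y => (Ψ (s i)).a * y) (Finsupp.mapDomain ι (Θ (g i)).f)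
  rw [← Finsupp.mapDomain_comp]
  rfl

/-- systems which are injective and aspherical over enough quotients of `Q` -/
theorem key3 (Θ : G →* Wr V Q) (hΘ : ∀ x : Q, ∃ g : G, (Θ g).a = x) (n : ℕ)
    (w : Fin n → Coprod G (FreeGroup (Fin n)))
    (hres : ∀ B : Finset Q, ∃ (Q' : Type) (_ : Group Q') (π : Q →* Q'),
      (∀ b ∈ B, π b = 1 → b = 1) ∧
      Function.Injective (toPP (down ((Wr.map π : Wr V Q →* Wr V Q').comp Θ) w)) ∧
      Asph (down ((Wr.map π : Wr V Q →* Wr V Q').comp Θ) w))
    (r : ℕ) (g : Fin r → G) (hg0 : ∀ i, (Θ (g i)).a = 1)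
    (hg : ∃ h : Fin r → (Coprod G (FreeGroup (Fin n)) ⧸ Subgroup.normalClosure (Set.range w)),
      (List.ofFn fun i => h i * QuotientGroup.mk' (Subgroup.normalClosure (Set.range w))
        (Coprod.inl (g i)) * (h i)⁻¹).prod = 1) :
    ∃ x : Fin r → G, Θ (List.ofFn fun i => x i * g i * (x i)⁻¹).prod = 1 := by
  classical
  have hmain : ∀ B : Finset Q, ∃ (P : Type) (_ : Group P) (π : Q →* P) (m : Fin r → P),
      (∀ b ∈ B, π b = 1 → b = 1) ∧
        ∑ i, Finsupp.mapDomain (fun y => m i * π y) (Θ (g i)).f = 0 := by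
    intro B
    obtain ⟨Q', _, π, hπ, hinj, hasp⟩ := hres B
    obtain ⟨m, hm⟩ := key3_core ((Wr.map π : Wr V Q →* Wr V Q').comp Θ) n w hasp r g
      (fun i => by
        show π (Θ (g i)).a = 1
        rw [hg0, map_one]) hg
    refine ⟨_, inferInstance, (toPP (down ((Wr.map π : Wr V Q →* Wr V Q').comp Θ) w)).comp π, m,
      fun b hb hb1 => hπ b hb ?_, ?_⟩
    · exact hinj (hb1.trans (map_one _).symm)
    · rw [← hm]
      refine Finset.sum_congr rfl fun i _ => ?_
      show _ = Finsupp.mapDomain (fun y => m i *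
        toPP (down ((Wr.map π : Wr V Q →* Wr V Q').comp Θ) w) y) (Finsupp.mapDomain π (Θ (g i)).f)
      rw [← Finsupp.mapDomain_comp]
      rfl
  obtain ⟨m, hm⟩ := unwrap (fun i => (Θ (g i)).f) hmain
  choose x hx using fun i => hΘ (m i)
  refine ⟨x, ?_⟩
  rw [map_list_prod, List.map_ofFn]
  have e : (⇑Θ ∘ fun i => x i * g i * (x i)⁻¹) = fun i => Θ (x i) * Θ (g i) * (Θ (x i))⁻¹ := by
    funext i
    simp
  rw [e]
  obtain ⟨h1, h2⟩ := prod_ofFn (fun i => Θ (x i) * Θ (g i) * (Θ (x i))⁻¹)
    fun i => conj_a _ _ (hg0 i)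
  ext1
  · rw [h2, one_f, ← hm]
    refine Finset.sum_congr rfl fun i _ => ?_
    rw [conj_f _ _ (hg0 i), hx]
    rfl
  · rw [h1, one_a]

end main

end Pool.Agent.X201.KW
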