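import Pool.Agent.X201.KW.Asp
import Pool.Agent.X237.FS.Base

/-! Free sides imply asphericity of the relative presentation. -/

set_option autoImplicit false

open Monoid

namespace Pool.Agent.X201.KW

open Wr
open Pool.Agent.X237.FS (Letter gen lval val Grp pr coef sides IsFree FreeSides val_nil val_cons
  val_append split_of_sides sides_append sides_smul sides_eq_map coef_injective)

section fs

variable {Q A : Type} [Group Q] [Group A] {n : ℕ} (r : Fin n → List (Letter Q (Fin n)))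

/-- the relators -/
def rel : Fin n → Coprod Q (FreeGroup (Fin n)) := fun e => val (r e)

theorem fox_a (u : Coprod Q (FreeGroup (Fin n))) :
    (fox (rel r) u).a = QuotientGroup.mk' (Subgroup.normalClosure (Set.range (rel r))) u := by
  have h1 : (Wr.proj : Wr (Fin n → ℤ) (PP (rel r)) →* PP (rel r)).comp (fox (rel r)) =
      QuotientGroup.mk' (Subgroup.normalClosure (Set.range (rel r))) := by
    apply Coprod.hom_ext
    · refine MonoidHom.ext fun u => ?_
      rfl
    · refine FreeGroup.ext_hom _ _ fun u => ?_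
      simp [fox]
  exact DFunLike.congr_fun h1 u

theorem fox_gen (x : Fin n) : (fox (rel r) (gen Q x)).f =
    Finsupp.single 1 (Pi.single x (1 : ℤ) : Fin n → ℤ) := by
  simp [fox, gen]

theorem fox_inl (g : Q) : (fox (rel r) (Coprod.inl g)).f = 0 := by
  simp [fox]

theorem sh_apply {P V : Type} [Group P] [AddCommGroup V] (a : P) (f : P →₀ V) (y : P) :
    sh a f y = f (a⁻¹ * y) := by
  have h := Finsupp.mapDomain_apply (mul_right_injective a) f (a⁻¹ * y)
  rw [mul_inv_cancel_left] at h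
  exact h

theorem fox_gen_inv (x : Fin n) : (fox (rel r) (gen Q x)⁻¹).f =
    -Finsupp.single (QuotientGroup.mk' (Subgroup.normalClosure (Set.range (rel r)))
      (gen Q x))⁻¹ (Pi.single x (1 : ℤ) : Fin n → ℤ) := by
  rw [map_inv, inv_f, fox_a, fox_gen]
  congr 1
  have e : sh (QuotientGroup.mk' (Subgroup.normalClosure (Set.range (rel r))) (gen Q x))⁻¹
      (Finsupp.single (1 : PP (rel r)) (Pi.single x (1 : ℤ) : Fin n → ℤ)) =
      Finsupp.single ((QuotientGroup.mk' (Subgroup.normalClosure (Set.range (rel r)))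
        (gen Q x))⁻¹ * 1) (Pi.single x (1 : ℤ) : Fin n → ℤ) := Finsupp.mapDomain_single
  rw [e, mul_one]

variable {r} (ρ : Grp r →* A)

theorem fox_zero (w : List (Letter Q (Fin n))) : ∀ (y : PP (rel r)) (i : Fin n),
    (i, ρ y) ∉ sides (ρ.comp (pr r)) 1 w → (fox (rel r) (val w)).f y i = 0 := by
  classical
  induction w with
  | nil =>
    intro y i _
    rw [val_nil, map_one]
    rfl
  | cons l w ih =>
    intro y i hy
    rw [val_cons, map_mul (fox (rel r)), mul_f, Finsupp.add_apply, Pi.add_apply, fox_a, sh_apply]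
    have hrest : ∀ a : A, a = ρ (pr r (lval l)) → (i, ρ y) ∉ sides (ρ.comp (pr r)) a w →
        (fox (rel r) (val w)).f
          ((QuotientGroup.mk' (Subgroup.normalClosure (Set.range (rel r))) (lval l))⁻¹ * y) i =
          0 := by
      intro a ha h
      apply ih
      intro h2
      apply h
      rw [sides_eq_map]
      refine List.mem_map.2 ⟨_, h2, ?_⟩
      have e : ∀ y' : Grp r, (i, a * ρ ((pr r (lval l))⁻¹ * y')) = (i, ρ y') := by
        intro y'
        rw [map_mul, map_inv, ha, mul_inv_cancel_left]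
      exact e y
    rcases l with g | ⟨x, _ | _⟩
    · simp only [sides] at hy
      rw [hrest (1 * (ρ.comp (pr r)) (Coprod.inl g)) (one_mul _) hy]
      show (fox (rel r) (Coprod.inl g)).f y i + 0 = 0
      rw [fox_inl]
      rfl
    · simp only [sides, List.mem_cons, not_or] at hy
      rw [hrest (1 * ((ρ.comp (pr r)) (gen Q x))⁻¹) (by
        rw [one_mul]
        show _ = ρ (pr r (gen Q x)⁻¹)
        rw [map_inv, map_inv]
        rfl) hy.2]
      show (fox (rel r) (gen Q x)⁻¹).f y i + 0 = 0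
      rw [fox_gen_inv, add_zero, Finsupp.neg_apply, Pi.neg_apply, neg_eq_zero]
      by_cases h1 : (QuotientGroup.mk' (Subgroup.normalClosure (Set.range (rel r)))
          (gen Q x))⁻¹ = y
      · rw [h1, Finsupp.single_eq_same]
        refine Pi.single_eq_of_ne (fun h2 => hy.1 ?_) _
        rw [h2, one_mul]
        refine Prod.ext rfl ?_
        show ρ y = (ρ (pr r (gen Q x)))⁻¹
        rw [← h1]
        exact map_inv ρ _
      · rw [Finsupp.single_eq_of_ne (Ne.symm h1)]
        rfl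
    · simp only [sides, List.mem_cons, not_or] at hy
      rw [hrest (1 * (ρ.comp (pr r)) (gen Q x)) (one_mul _) hy.2]
      show (fox (rel r) (gen Q x)).f y i + 0 = 0
      rw [fox_gen, add_zero]
      by_cases h1 : (1 : PP (rel r)) = y
      · rw [h1, Finsupp.single_eq_same]
        refine Pi.single_eq_of_ne (fun h2 => hy.1 ?_) _
        rw [h2]
        refine Prod.ext rfl ?_
        show ρ y = 1
        rw [← h1]
        exact map_one ρ
      · rw [Finsupp.single_eq_of_ne (Ne.symm h1)]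
        rfl

/-- the values of a word with a unique side over `b` -/
theorem fox_unique (w₁ w₂ : List (Letter Q (Fin n))) (i : Fin n) (β : Bool) (b : A)
    (h1 : (i, b) ∉ sides (ρ.comp (pr r)) 1 w₁)
    (h2 : (i, b) ∉ sides (ρ.comp (pr r)) (ρ (pr r (val w₁ * lval (.inr (i, β))))) w₂)
    (hb : b = if β then 1 * (ρ.comp (pr r)) (val w₁) else 1 * (ρ.comp (pr r)) (val w₁) *
      ((ρ.comp (pr r)) (gen Q i))⁻¹) :
    ∃ (z : PP (rel r)) (ε : ℤ), ε ≠ 0 ∧ ρ z = b ∧ ∀ y : PP (rel r), ρ y = b →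
      (y = z → (fox (rel r) (val (w₁ ++ .inr (i, β) :: w₂))).f y i = ε) ∧
      (y ≠ z → (fox (rel r) (val (w₁ ++ .inr (i, β) :: w₂))).f y i = 0) := by
  classical
  have hval : val (w₁ ++ Sum.inr (i, β) :: w₂) =
      val w₁ * (lval (Sum.inr (i, β) : Letter Q (Fin n)) * val w₂) := by
    rw [val_append, val_cons]
  have key : ∀ y : PP (rel r), ρ y = b →
      (fox (rel r) (val (w₁ ++ .inr (i, β) :: w₂))).f y i =
        (fox (rel r) (lval (Sum.inr (i, β) : Letter Q (Fin n)))).f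
          ((QuotientGroup.mk' (Subgroup.normalClosure (Set.range (rel r))) (val w₁))⁻¹ * y) i := by
    intro y hy
    rw [hval, map_mul (fox (rel r)), mul_f, Finsupp.add_apply, Pi.add_apply, fox_a, sh_apply,
      map_mul (fox (rel r)), mul_f, Finsupp.add_apply, Pi.add_apply, fox_a, sh_apply]
    have e1 : (fox (rel r) (val w₁)).f y i = 0 := fox_zero ρ w₁ y i (by rw [hy]; exact h1)
    have e2 : (fox (rel r) (val w₂)).f
        ((QuotientGroup.mk' (Subgroup.normalClosure (Set.range (rel r)))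
          (lval (Sum.inr (i, β) : Letter Q (Fin n))))⁻¹ *
        ((QuotientGroup.mk' (Subgroup.normalClosure (Set.range (rel r))) (val w₁))⁻¹ * y)) i =
        0 := by
      apply fox_zero ρ
      intro h3
      apply h2
      rw [sides_eq_map]
      refine List.mem_map.2 ⟨_, h3, ?_⟩
      have e : ∀ y' : Grp r, (i, ρ (pr r (val w₁ * lval (.inr (i, β)))) *
          ρ ((pr r (lval (.inr (i, β))))⁻¹ * ((pr r (val w₁))⁻¹ * y'))) = (i, ρ y') := by
        intro y'
        rw [← map_mul, map_mul (pr r), mul_assoc, mul_inv_cancel_left, mul_inv_cancel_left]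
      exact (e y).trans (Prod.ext rfl hy)
    rw [e1, e2, zero_add, add_zero]
  cases β with
  | true =>
    refine ⟨QuotientGroup.mk' (Subgroup.normalClosure (Set.range (rel r))) (val w₁), 1,
      one_ne_zero, ?_, fun y hy => ⟨fun h => ?_, fun h => ?_⟩⟩
    · rw [hb, if_pos rfl, one_mul]
      rfl
    · rw [key y hy, h, inv_mul_cancel]
      show (fox (rel r) (gen Q i)).f 1 i = 1
      rw [fox_gen, Finsupp.single_eq_same, Pi.single_eq_same]
    · rw [key y hy]
      show (fox (rel r) (gen Q i)).f _ i = 0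
      rw [fox_gen, Finsupp.single_eq_of_ne]
      · rfl
      · intro h3
        exact h (inv_mul_eq_one.1 h3).symm
  | false =>
    refine ⟨QuotientGroup.mk' (Subgroup.normalClosure (Set.range (rel r))) (val w₁) *
      (QuotientGroup.mk' (Subgroup.normalClosure (Set.range (rel r))) (gen Q i))⁻¹, -1,
      by norm_num, ?_, fun y hy => ⟨fun h => ?_, fun h => ?_⟩⟩
    · rw [hb, if_neg Bool.false_ne_true, one_mul]
      show ρ (pr r (val w₁) * (pr r (gen Q i))⁻¹) = _
      rw [map_mul, map_inv]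
      rfl
    · rw [key y hy, h, inv_mul_cancel_left]
      show (fox (rel r) (gen Q i)⁻¹).f _ i = -1
      rw [fox_gen_inv, Finsupp.neg_apply, Pi.neg_apply, Finsupp.single_eq_same, Pi.single_eq_same]
    · rw [key y hy]
      show (fox (rel r) (gen Q i)⁻¹).f _ i = 0
      rw [fox_gen_inv, Finsupp.neg_apply, Pi.neg_apply, Finsupp.single_eq_of_ne]
      · simp
      · intro h3
        exact h (inv_mul_eq_iff_eq_mul.1 h3)

theorem asph_of_freeSides (hfree : FreeSides r ρ) : Asph (rel r) := by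
  classical
  intro c hc
  by_contra hne
  obtain ⟨j, hj⟩ := Function.ne_iff.1 hne
  obtain ⟨h, hh⟩ := Finsupp.ne_iff.1 hj
  let S : Finset (Fin n × A) := Finset.univ.biUnion fun j =>
    (c j).support.image fun h : PP (rel r) => (j, ρ h)
  have hS : ∀ j h, c j h ≠ 0 → (j, ρ h) ∈ S := by
    intro j h hjh
    refine Finset.mem_biUnion.2 ⟨j, Finset.mem_univ _, Finset.mem_image.2 ⟨h, ?_, rfl⟩⟩
    exact Finsupp.mem_support_iff.2 hjh
  obtain ⟨⟨j₀, a₀⟩, hd, ⟨i, b⟩, ⟨l₁, l₂, hl, hl1, hl2⟩, hother⟩ :=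
    hfree S ⟨(j, ρ h), hS j h hh⟩
  obtain ⟨j₁, -, hd1⟩ := Finset.mem_biUnion.1 hd
  obtain ⟨(h₀ : PP (rel r)), hh₀, hd2⟩ := Finset.mem_image.1 hd1
  obtain ⟨rfl, rfl⟩ : j₁ = j₀ ∧ ρ h₀ = a₀ := Prod.ext_iff.1 hd2
  have hc0 : c j₁ h₀ ≠ 0 := Finsupp.mem_support_iff.1 hh₀
  -- the side at the base point
  have hl' : sides (ρ.comp (pr r)) 1 (r j₁) = l₁.map (fun s => (s.1, (ρ h₀)⁻¹ * s.2)) ++
      (i, (ρ h₀)⁻¹ * b) :: l₂.map (fun s => (s.1, (ρ h₀)⁻¹ * s.2)) := by
    have h1 := sides_smul (ρ.comp (pr r)) (ρ h₀)⁻¹ (ρ h₀) (r j₁)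
    rw [inv_mul_cancel] at h1
    rw [h1, hl, List.map_append, List.map_cons]
  have hnot : ∀ l : List (Fin n × A), (i, b) ∉ l →
      (i, (ρ h₀)⁻¹ * b) ∉ l.map (fun s => (s.1, (ρ h₀)⁻¹ * s.2)) := by
    intro l hl h1
    obtain ⟨⟨i', b'⟩, h2, h3⟩ := List.mem_map.1 h1
    rw [Prod.ext_iff] at h3
    obtain ⟨h3, h4⟩ := h3
    have h5 : b' = b := mul_left_cancel h4
    have h6 : i' = i := h3
    rw [h5, h6] at h2
    exact hl h2
  obtain ⟨w₁, w₂, β, hw, hw1, hw2, hw3⟩ := split_of_sides (ρ.comp (pr r)) 1 (r j₁) _ _ _ hl'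
  obtain ⟨z, ε, hε, hρz, hz⟩ := fox_unique ρ w₁ w₂ i β ((ρ h₀)⁻¹ * b)
    (by rw [hw1]; exact hnot l₁ hl1) (by
      have e : ρ (pr r (val w₁ * lval (.inr (i, β)))) = 1 * (ρ.comp (pr r)) (val w₁) *
          (ρ.comp (pr r)) (lval (Sum.inr (i, β) : Letter Q (Fin n))) := by
        rw [one_mul, ← map_mul]
        rfl
      rw [e, hw3]
      exact hnot l₂ hl2) hw2
  rw [← hw] at hz
  have hmul : ∀ u u' : PP (rel r), ρ (u⁻¹ * u') = (ρ u)⁻¹ * ρ u' := by
    have e : ∀ u u' : Grp r, ρ (u⁻¹ * u') = (ρ u)⁻¹ * ρ u' := fun u u' => by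
      rw [map_mul, map_inv]
    exact fun u u' => e u u'
  have hmul' : ∀ u u' : PP (rel r), ρ (u * u') = ρ u * ρ u' := by
    have e : ∀ u u' : Grp r, ρ (u * u') = ρ u * ρ u' := fun u u' => map_mul ρ u u'
    exact fun u u' => e u u'
  have happ : ∀ (c : PP (rel r) →₀ ℤ) (f : PP (rel r) →₀ (Fin n → ℤ)) (y : PP (rel r)),
      conv c f y i = ∑ h ∈ c.support, c h * f (h⁻¹ * y) i := by
    intro c f y
    unfold conv Finsupp.sum
    rw [Finsupp.finsetSum_apply, Finset.sum_apply]
    refine Finset.sum_congr rfl fun h _ => ?_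
    rw [Finsupp.smul_apply, Pi.smul_apply, sh_apply, smul_eq_mul]
  -- the values
  have hval : ∀ j h, c j h ≠ 0 → (j, h) ≠ (j₁, h₀) →
      (fox (rel r) (rel r j)).f (h⁻¹ * (h₀ * z)) i = 0 := by
    intro j h hjh hne2
    have hρ : ρ (h⁻¹ * (h₀ * z)) = (ρ h)⁻¹ * b := by
      rw [hmul, hmul', hρz, mul_inv_cancel_left]
    by_cases h3 : (j, ρ h) = (j₁, ρ h₀)
    · rw [Prod.ext_iff] at h3
      obtain ⟨h4, h5⟩ := h3
      have h4' : j = j₁ := h4
      have h5' : ρ h = ρ h₀ := h5
      subst h4'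
      refine (hz _ (by rw [hρ, h5'])).2 fun h6 => hne2 ?_
      rw [inv_mul_eq_iff_eq_mul] at h6
      rw [mul_right_cancel h6]
    · have h4 := hother (j, ρ h) (hS j h hjh) h3
      apply fox_zero ρ
      intro h5
      apply h4
      show (i, b) ∈ sides (ρ.comp (pr r)) (ρ h) (r j)
      rw [sides_eq_map]
      refine List.mem_map.2 ⟨_, h5, ?_⟩
      show (i, ρ h * ρ (h⁻¹ * (h₀ * z))) = (i, b)
      rw [hρ, mul_inv_cancel_left]
  have h7 := congrFun (DFunLike.congr_fun hc (h₀ * z)) i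
  rw [Finsupp.finsetSum_apply, Finset.sum_apply, Finset.sum_eq_single j₁] at h7
  · rw [happ, Finset.sum_eq_single h₀] at h7
    · rw [inv_mul_cancel_left] at h7
      have h8 : (fox (rel r) (rel r j₁)).f z i = ε := (hz z hρz).1 rfl
      rw [h8] at h7
      exact mul_ne_zero hc0 hε h7
    · intro h hh hne2
      rw [hval j₁ h (Finsupp.mem_support_iff.1 hh) (fun h9 => hne2 (Prod.ext_iff.1 h9).2), mul_zero]
    · intro h9
      exact absurd hh₀ h9
  · intro j _ hj
    rw [happ]
    refine Finset.sum_eq_zero fun h hh => ?_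
    rw [hval j h (Finsupp.mem_support_iff.1 hh) (fun h9 => hj (Prod.ext_iff.1 h9).1), mul_zero]
  · intro h9
    exact absurd (Finset.mem_univ _) h9

theorem inj_of_freeSides (hfree : FreeSides r ρ) : Function.Injective (toPP (rel r)) :=
  coef_injective r ρ hfree

end fs

section one

variable {Q A : Type} [Group Q] [Group A] [LinearOrder A]

/-- one equation in one unknown: in the covering belonging to `ρ`, one side of the 2-cell lies
strictly below all other sides -/
def OneMin (r : List (Letter Q (Fin 1))) (ρ : Grp (fun _ : Fin 1 => r) →* A) : Prop :=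
  (∀ a b c : A, b ≤ c → a * b ≤ a * c) ∧ ∃ (l₁ l₂ : List (Fin 1 × A)) (m : A),
    sides (ρ.comp (pr fun _ : Fin 1 => r)) 1 r = l₁ ++ (0, m) :: l₂ ∧
      (∀ s ∈ l₁, m < s.2) ∧ ∀ s ∈ l₂, m < s.2

theorem freeSides_of_oneMin (r : List (Letter Q (Fin 1))) (ρ : Grp (fun _ : Fin 1 => r) →* A)
    (h : OneMin r ρ) : FreeSides (fun _ : Fin 1 => r) ρ := by
  obtain ⟨hA, l₁, l₂, m, hl, h1, h2⟩ := h
  intro S hS
  obtain ⟨d, hd, hmin⟩ := Finset.exists_min_image S (fun d => d.2 * m) hS
  refine ⟨d, hd, (0, d.2 * m), ⟨l₁.map (fun s => (s.1, d.2 * s.2)),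
    l₂.map (fun s => (s.1, d.2 * s.2)), ?_, ?_, ?_⟩, ?_⟩
  · show sides _ d.2 r = _
    rw [sides_eq_map, hl, List.map_append, List.map_cons]
  · intro h3
    obtain ⟨s, hs, h4⟩ := List.mem_map.1 h3
    have h5 : d.2 * s.2 = d.2 * m := (Prod.ext_iff.1 h4).2
    exact (h1 s hs).ne' (mul_left_cancel h5)
  · intro h3
    obtain ⟨s, hs, h4⟩ := List.mem_map.1 h3
    have h5 : d.2 * s.2 = d.2 * m := (Prod.ext_iff.1 h4).2
    exact (h2 s hs).ne' (mul_left_cancel h5)
  · intro d' hd' hne h3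
    have h3' : (0, d.2 * m) ∈ sides (ρ.comp (pr fun _ : Fin 1 => r)) d'.2 r := h3
    rw [sides_eq_map] at h3'
    obtain ⟨s, hs, h4⟩ := List.mem_map.1 h3'
    have h5 : d'.2 * s.2 = d.2 * m := (Prod.ext_iff.1 h4).2
    have h6 : m ≤ s.2 := by
      rw [hl] at hs
      rcases List.mem_append.1 hs with hs | hs
      · exact (h1 s hs).le
      · rcases List.mem_cons.1 hs with rfl | hs
        · exact le_refl _
        · exact (h2 s hs).le
    have h7 : d.2 * m ≤ d'.2 * m := hmin d' hd'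
    have h8 : d'.2 * m ≤ d'.2 * s.2 := hA _ _ _ h6
    have h9 : d'.2 * m = d.2 * m := le_antisymm (h8.trans h5.le) h7
    exact hne (Prod.ext (Subsingleton.elim _ _) (mul_right_cancel h9))

end one

end Pool.Agent.X201.KW
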