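import Pool.Agent.X201.KW.Sol

/-! Tuples whose elements are central modulo an abelian normal subgroup. -/

set_option autoImplicit false

open Monoid
open scoped IsMulCommutative commutatorElement
open Pool.Agent.TH63.KQ (comm comm_single shift)

namespace Pool.Agent.X201.KW

section classtwo

variable {N : Type} [Group N]

theorem comm_mul_left (hN : ∀ x y : N, ⁅x, y⁆ ∈ Subgroup.center N) (x x' y : N) :
    ⁅x * x', y⁆ = ⁅x, y⁆ * ⁅x', y⁆ := by
  have h := Subgroup.mem_center_iff.1 (hN x' y) x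
  have e : ⁅x * x', y⁆ = x * ⁅x', y⁆ * (y * x⁻¹ * y⁻¹) := by
    rw [commutatorElement_def, commutatorElement_def]; group
  rw [e, h, commutatorElement_def x y]
  have h2 := Subgroup.mem_center_iff.1 (hN x' y) (x * y * x⁻¹ * y⁻¹)
  rw [h2]
  group

theorem comm_mul_right (hN : ∀ x y : N, ⁅x, y⁆ ∈ Subgroup.center N) (x y y' : N) :
    ⁅x, y * y'⁆ = ⁅x, y⁆ * ⁅x, y'⁆ := by
  have h := Subgroup.mem_center_iff.1 (hN x y') y⁻¹
  have e : ⁅x, y * y'⁆ = x * y * x⁻¹ * (⁅x, y'⁆ * y⁻¹) := by
    rw [commutatorElement_def, commutatorElement_def]; group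
  rw [e, ← h, commutatorElement_def x y]
  group

/-- the homomorphism `x ↦ [x, y]` -/
def phi (hN : ∀ x y : N, ⁅x, y⁆ ∈ Subgroup.center N) (y : N) : N →* Subgroup.center N :=
  MonoidHom.mk' (fun x => ⟨⁅x, y⁆, hN x y⟩) fun x x' => Subtype.ext (comm_mul_left hN x x' y)

theorem ofFn_conj (hN : ∀ x y : N, ⁅x, y⁆ ∈ Subgroup.center N) : ∀ (r : ℕ) (k s : Fin r → N),
    (List.ofFn fun i => s i * k i * (s i)⁻¹).prod =
      ((∏ i, phi hN (k i) (s i) : Subgroup.center N) : N) * (List.ofFn k).prod := by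
  intro r
  induction r with
  | zero =>
    intro k s
    simp
  | succ r ih =>
    intro k s
    rw [List.ofFn_succ, List.prod_cons, ih (fun i => k i.succ) fun i => s i.succ,
      Fin.prod_univ_succ, List.ofFn_succ (f := k), List.prod_cons, Subgroup.coe_mul]
    set z : Subgroup.center N := ∏ i : Fin r, phi hN (k i.succ) (s i.succ) with hz
    have h1 := Subgroup.mem_center_iff.1 z.2 (k 0)
    have h2 : s 0 * k 0 * (s 0)⁻¹ = ((phi hN (k 0) (s 0) : Subgroup.center N) : N) * k 0 := by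
      show _ = ⁅s 0, k 0⁆ * k 0
      rw [commutatorElement_def]; group
    rw [h2, mul_assoc, ← mul_assoc (k 0), h1]
    simp only [mul_assoc]

theorem class_two (hN : ∀ x y : N, ⁅x, y⁆ ∈ Subgroup.center N) {r : ℕ} (k : Fin r → N)
    (hgen : Subgroup.center N ⊔ Subgroup.closure (Set.range k) = ⊤)
    (hp : (List.ofFn k).prod ∈ commutator N) :
    ∃ s : Fin r → N, (List.ofFn fun i => s i * k i * (s i)⁻¹).prod = 1 := by
  classical
  let Z : Subgroup (Subgroup.center N) :=
    { carrier := {z | ∃ s : Fin r → N, z = ∏ i, phi hN (k i) (s i)}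
      mul_mem' := by
        rintro _ _ ⟨s, rfl⟩ ⟨s', rfl⟩
        refine ⟨s * s', ?_⟩
        rw [← Finset.prod_mul_distrib]
        refine Finset.prod_congr rfl fun i _ => ?_
        rw [Pi.mul_apply, map_mul]
      one_mem' := ⟨1, by simp⟩
      inv_mem' := by
        rintro _ ⟨s, rfl⟩
        refine ⟨s⁻¹, ?_⟩
        rw [← Finset.prod_inv_distrib]
        refine Finset.prod_congr rfl fun i _ => ?_
        rw [Pi.inv_apply, map_inv] }
  have hone : ∀ x : N, ⁅x, (1 : N)⁆ = 1 := fun x => commutatorElement_one_right x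
  let W : Subgroup N :=
    { carrier := {y | ∀ x, phi hN y x ∈ Z}
      mul_mem' := by
        intro y y' hy hy' x
        have e : phi hN (y * y') x = phi hN y x * phi hN y' x :=
          Subtype.ext (comm_mul_right hN x y y')
        rw [e]
        exact Z.mul_mem (hy x) (hy' x)
      one_mem' := by
        intro x
        have e : phi hN 1 x = 1 := Subtype.ext (hone x)
        rw [e]
        exact Z.one_mem
      inv_mem' := by
        intro y hy x
        have e : phi hN y⁻¹ x = (phi hN y x)⁻¹ := by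
          refine Subtype.ext ?_
          show ⁅x, y⁻¹⁆ = (⁅x, y⁆)⁻¹
          have h := comm_mul_right hN x y y⁻¹
          rw [mul_inv_cancel, hone] at h
          exact (inv_eq_of_mul_eq_one_right h.symm).symm
        rw [e]
        exact Z.inv_mem (hy x) }
  have hW : (⊤ : Subgroup N) ≤ W := by
    rw [← hgen]
    refine sup_le ?_ ((Subgroup.closure_le _).2 ?_)
    · intro y hy x
      have e : phi hN y x = 1 := Subtype.ext (by
        show ⁅x, y⁆ = 1
        exact commutatorElement_eq_one_iff_mul_comm.2 (Subgroup.mem_center_iff.1 hy x))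
      rw [e]
      exact Z.one_mem
    · rintro _ ⟨i, rfl⟩ x
      refine ⟨Pi.mulSingle i x, ?_⟩
      rw [Finset.prod_eq_single i]
      · rw [Pi.mulSingle_eq_same]
      · intro j _ hj
        rw [Pi.mulSingle_eq_of_ne hj, map_one]
      · intro h
        exact absurd (Finset.mem_univ _) h
  have hle : commutator N ≤ Z.map (Subgroup.center N).subtype := by
    rw [commutator_def, Subgroup.commutator_le]
    intro x _ y _
    exact ⟨phi hN y x, hW (Subgroup.mem_top y) x, rfl⟩
  obtain ⟨z, ⟨s, hs⟩, hz⟩ := hle hp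
  refine ⟨s⁻¹, ?_⟩
  rw [ofFn_conj hN]
  have e : (∏ i, phi hN (k i) (s⁻¹ i) : Subgroup.center N) = z⁻¹ := by
    rw [hs, ← Finset.prod_inv_distrib]
    refine Finset.prod_congr rfl fun i _ => ?_
    rw [Pi.inv_apply, map_inv]
  rw [e, ← hz]
  show (z⁻¹ : Subgroup.center N).1 * z.1 = 1
  rw [Subgroup.coe_inv, inv_mul_cancel]

end classtwo

section metab

variable {G : Type} [Group G] (A : Subgroup G) [hAn : A.Normal] [hAc : IsMulCommutative A]

theorem conj_eq_of_mem (a : G) (ha : a ∈ A) (y : G) :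
    (MulAut.conjNormal (a * y) : A ≃* A) = MulAut.conjNormal y := by
  ext b
  have h := congrArg (Subtype.val : A → G) (mul_comm (⟨a, ha⟩ : A) (MulAut.conjNormal y b))
  have h' : a * (y * b * y⁻¹) = (y * b * y⁻¹) * a := h
  show a * y * (b : G) * (a * y)⁻¹ = y * b * y⁻¹
  calc a * y * (b : G) * (a * y)⁻¹ = a * (y * b * y⁻¹) * a⁻¹ := by group
    _ = y * b * y⁻¹ := by rw [h', mul_inv_cancel_right]

theorem metab {r : ℕ} (g : Fin r → G) (hc : ∀ (y : G) (i : Fin r), ⁅y, g i⁆ ∈ A)
    (x : Fin r → G)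
    (hx : (List.ofFn fun i => x i * g i * (x i)⁻¹).prod ∈
      ⁅A ⊔ Subgroup.closure (Set.range g), A ⊔ Subgroup.closure (Set.range g)⁆) :
    ∃ x' : Fin r → G, (List.ofFn fun i => x' i * g i * (x' i)⁻¹).prod = 1 := by
  classical
  set R := A ⊔ Subgroup.closure (Set.range g) with hR
  have hAR : A ≤ R := le_sup_left
  have hgR : ∀ i, g i ∈ R := fun i => (le_sup_right : Subgroup.closure (Set.range g) ≤ R)
    (Subgroup.subset_closure ⟨i, rfl⟩)
  let k : Fin r → G := fun i => x i * g i * (x i)⁻¹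
  have hkg : ∀ i, k i = ⁅x i, g i⁆ * g i := by
    intro i
    show x i * g i * (x i)⁻¹ = _
    rw [commutatorElement_def]; group
  have hkR : ∀ i, k i ∈ R := fun i => by
    rw [hkg]
    exact R.mul_mem (hAR (hc _ _)) (hgR i)
  -- everything in R is central modulo A
  have hRA : ∀ y ∈ R, ∀ z : G, ⁅z, y⁆ ∈ A := by
    have h1 : R ≤ (Subgroup.center (G ⧸ A)).comap (QuotientGroup.mk' A) := by
      refine sup_le ?_ ((Subgroup.closure_le _).2 ?_)
      · intro a ha
        have e : QuotientGroup.mk' A a = 1 := (QuotientGroup.eq_one_iff a).2 ha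
        rw [Subgroup.mem_comap, e]
        exact Subgroup.one_mem _
      · rintro _ ⟨i, rfl⟩
        refine Subgroup.mem_center_iff.2 fun z => ?_
        obtain ⟨z, rfl⟩ := QuotientGroup.mk'_surjective A z
        rw [← commutatorElement_eq_one_iff_mul_comm, ← map_commutatorElement]
        exact (QuotientGroup.eq_one_iff _).2 (hc z i)
    intro y hy z
    have h2 := Subgroup.mem_center_iff.1 (h1 hy) (QuotientGroup.mk' A z)
    rw [← commutatorElement_eq_one_iff_mul_comm, ← map_commutatorElement] at h2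
    exact (QuotientGroup.eq_one_iff _).1 h2
  -- the action on A
  have hact : ∀ (y : G) (l : Fin r) (a : A), MulAut.conjNormal y (MulAut.conjNormal (k l) a) =
      MulAut.conjNormal (k l) (MulAut.conjNormal y a) := by
    intro y l a
    have h1 := conj_eq_of_mem A ⁅y, k l⁆ (hRA _ (hkR l) y) (k l * y)
    have e : ⁅y, k l⁆ * (k l * y) = y * k l := by rw [commutatorElement_def]; group
    rw [e] at h1
    have h2 := DFunLike.congr_fun h1 a
    have h3 : (MulAut.conjNormal (y * k l) : A ≃* A) a =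
        MulAut.conjNormal y (MulAut.conjNormal (k l) a) :=
      DFunLike.congr_fun (map_mul MulAut.conjNormal y (k l)) a
    have h4 : (MulAut.conjNormal (k l * y) : A ≃* A) a =
        MulAut.conjNormal (k l) (MulAut.conjNormal y a) :=
      DFunLike.congr_fun (map_mul MulAut.conjNormal (k l) y) a
    exact h3.symm.trans (h2.trans h4)
  let D : Subgroup G := (comm A k).map A.subtype
  have hDn : D.Normal := ⟨by
    rintro _ ⟨z, hz, rfl⟩ y
    obtain ⟨a, ha⟩ := hz
    refine ⟨MulAut.conjNormal y z, ⟨fun l => MulAut.conjNormal y (a l), ?_⟩, rfl⟩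
    rw [ha, map_prod]
    refine Finset.prod_congr rfl fun l _ => ?_
    rw [map_mul, map_inv, hact]⟩
  let q : G →* G ⧸ D := QuotientGroup.mk' D
  -- A is central in R modulo D
  have hRD : ∀ y ∈ R, ∀ a ∈ A, q a * q y = q y * q a := by
    have hAW : A ≤ (Subgroup.centralizer (q '' (A : Set G))).comap q := by
      intro a ha
      refine Subgroup.mem_centralizer_iff.2 ?_
      rintro _ ⟨b, hb, rfl⟩
      rw [← map_mul, ← map_mul]
      congr 1
      exact congrArg (Subtype.val : A → G) (mul_comm (⟨b, hb⟩ : A) ⟨a, ha⟩)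
    have hkW : ∀ i, k i ∈ (Subgroup.centralizer (q '' (A : Set G))).comap q := by
      intro i
      refine Subgroup.mem_centralizer_iff.2 ?_
      rintro _ ⟨b, hb, rfl⟩
      have h1 := comm_single A k i ⟨b, hb⟩
      have h2 : q (k i * b * (k i)⁻¹ * b⁻¹) = 1 := (QuotientGroup.eq_one_iff _).2 ⟨_, h1, rfl⟩
      rw [map_mul, map_mul, map_mul, map_inv, map_inv, mul_inv_eq_one, mul_inv_eq_iff_eq_mul] at h2
      exact h2.symm
    have h1 : R ≤ (Subgroup.centralizer (q '' (A : Set G))).comap q := by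
      refine sup_le hAW ((Subgroup.closure_le _).2 ?_)
      rintro _ ⟨i, rfl⟩
      have e : g i = (⁅x i, g i⁆)⁻¹ * k i := by rw [hkg]; group
      rw [e]
      exact Subgroup.mul_mem _ (Subgroup.inv_mem _ (hAW (hc _ _))) (hkW i)
    intro y hy a ha
    exact Subgroup.mem_centralizer_iff.1 (h1 hy) (q a) ⟨a, ha, rfl⟩
  let N := R.map q
  let kb : Fin r → N := fun i => ⟨q (k i), ⟨k i, hkR i, rfl⟩⟩
  have hcent : ∀ (a : G) (ha : a ∈ A), (⟨q a, ⟨a, hAR ha, rfl⟩⟩ : N) ∈ Subgroup.center N := by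
    intro a ha
    refine Subgroup.mem_center_iff.2 ?_
    rintro ⟨_, y, hy, rfl⟩
    exact Subtype.ext (hRD y hy a ha).symm
  have hN : ∀ X Y : N, ⁅X, Y⁆ ∈ Subgroup.center N := by
    rintro ⟨_, y, hy, rfl⟩ ⟨_, z, hz, rfl⟩
    have h1 := hcent ⁅y, z⁆ (hRA z hz y)
    have e : (⟨q ⁅y, z⁆, ⟨⁅y, z⁆, hAR (hRA z hz y), rfl⟩⟩ : N) =
        ⁅(⟨q y, ⟨y, hy, rfl⟩⟩ : N), ⟨q z, ⟨z, hz, rfl⟩⟩⁆ := Subtype.ext (map_commutatorElement q y z)
    rw [e] at h1
    exact h1
  have hgen : Subgroup.center N ⊔ Subgroup.closure (Set.range kb) = ⊤ := by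
    have h1 : R ≤ ((Subgroup.center N ⊔ Subgroup.closure (Set.range kb)).map N.subtype).comap q := by
      have hA' : A ≤ ((Subgroup.center N ⊔ Subgroup.closure (Set.range kb)).map
          N.subtype).comap q := by
        intro a ha
        exact ⟨⟨q a, ⟨a, hAR ha, rfl⟩⟩, (le_sup_left : Subgroup.center N ≤ _) (hcent a ha), rfl⟩
      refine sup_le hA' ((Subgroup.closure_le _).2 ?_)
      rintro _ ⟨i, rfl⟩
      have e : g i = (⁅x i, g i⁆)⁻¹ * k i := by rw [hkg]; group
      rw [e]
      refine Subgroup.mul_mem _ (Subgroup.inv_mem _ (hA' (hc _ _))) ?_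
      exact ⟨kb i, (le_sup_right : Subgroup.closure (Set.range kb) ≤ _)
        (Subgroup.subset_closure ⟨i, rfl⟩), rfl⟩
    rw [eq_top_iff]
    rintro ⟨_, y, hy, rfl⟩ -
    obtain ⟨z, hz, hzy⟩ := h1 hy
    have e : z = ⟨q y, ⟨y, hy, rfl⟩⟩ := Subtype.ext hzy
    rw [← e]
    exact hz
  have hprodk : ((List.ofFn kb).prod : N).1 = q (List.ofFn k).prod := by
    have h1 := map_list_prod N.subtype (List.ofFn kb)
    rw [List.map_ofFn] at h1
    rw [map_list_prod, List.map_ofFn]
    exact h1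
  have hp : (List.ofFn kb).prod ∈ commutator N := by
    have h1 : q (List.ofFn k).prod ∈ (⁅R, R⁆).map q := ⟨_, hx, rfl⟩
    rw [Subgroup.map_commutator] at h1
    have h2 : ⁅R.map q, R.map q⁆ = (commutator N).map N.subtype := by
      rw [commutator_def, Subgroup.map_commutator, ← MonoidHom.range_eq_map,
        Subgroup.range_subtype]
    rw [h2] at h1
    obtain ⟨z, hz, hz2⟩ := h1
    have e : z = (List.ofFn kb).prod := Subtype.ext (hz2.trans hprodk.symm)
    rw [← e]
    exact hz
  obtain ⟨s, hs⟩ := class_two hN kb hgen hp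
  choose t htR ht using fun i => (s i).2
  -- the product is in D
  have hD : (List.ofFn fun i => t i * k i * (t i)⁻¹).prod ∈ D := by
    rw [← QuotientGroup.eq_one_iff]
    have h1 := congrArg N.subtype hs
    rw [map_one, map_list_prod, List.map_ofFn] at h1
    rw [← h1]
    show q _ = _
    rw [map_list_prod, List.map_ofFn]
    congr 2
    funext i
    show q (t i * k i * (t i)⁻¹) = (s i : G ⧸ D) * q (k i) * ((s i : G ⧸ D))⁻¹
    rw [map_mul, map_mul, map_inv, ht]
  obtain ⟨d, hd, hd2⟩ := hD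
  obtain ⟨a, ha⟩ := (comm A k).inv_mem hd
  obtain ⟨u, hu⟩ := shift A r (fun i => t i * k i * (t i)⁻¹) a
  have hconj : ∀ l, (MulAut.conjNormal (t l * k l * (t l)⁻¹) : A ≃* A) =
      MulAut.conjNormal (k l) := by
    intro l
    have h1 := conj_eq_of_mem A ⁅t l, k l⁆ (hRA _ (hkR l) (t l)) (k l)
    have e : ⁅t l, k l⁆ * k l = t l * k l * (t l)⁻¹ := by rw [commutatorElement_def]; group
    rw [e] at h1
    exact h1
  have hprod : (∏ l, a l * (MulAut.conjNormal (t l * k l * (t l)⁻¹) (a l))⁻¹ : A) = d⁻¹ := by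
    rw [ha]
    refine Finset.prod_congr rfl fun l _ => ?_
    rw [hconj]
  rw [hprod, ← hd2] at hu
  refine ⟨fun i => (u i : G) * t i * x i, ?_⟩
  have e : (fun i => (u i : G) * t i * x i * g i * ((u i : G) * t i * x i)⁻¹) =
      fun i => (u i : G) * (t i * k i * (t i)⁻¹) * (u i : G)⁻¹ := by
    funext i
    show (u i : G) * t i * x i * g i * ((u i : G) * t i * x i)⁻¹ =
      (u i : G) * (t i * (x i * g i * (x i)⁻¹) * (t i)⁻¹) * (u i : G)⁻¹
    group
  rw [e, hu]
  show (d⁻¹ : A).1 * d.1 = 1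
  rw [Subgroup.coe_inv, inv_mul_cancel]

end metab

end Pool.Agent.X201.KW
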