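import Pool.Agent.X201.KW.Met

/-! Kervaire extensions and tuples whose elements are central modulo an abelian normal subgroup. -/

set_option autoImplicit false

open Monoid
open scoped IsMulCommutative commutatorElement
open Pool.Agent.TH63.KQ (eta power)

namespace Pool.Agent.X201.KW

/-- `R` is an intersection of kernels of homomorphisms from `G` to finite `q`-groups -/
def ResMod (q : ℕ) {G : Type} [Group G] (R : Subgroup G) : Prop :=
  ∀ y : G, y ∉ R → ∃ (P : Type) (_ : Group P) (π : G →* P),
    (∃ k : ℕ, Nat.card P = q ^ k) ∧ (∀ z ∈ R, π z = 1) ∧ π y ≠ 1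

section

variable {G : Type} [Group G]

theorem central_mod (A : Subgroup G) [A.Normal] {r : ℕ} (g : Fin r → G)
    (hc : ∀ (y : G) (i : Fin r), ⁅y, g i⁆ ∈ A) (y : G)
    (hy : y ∈ A ⊔ Subgroup.closure (Set.range g)) (z : G) : ⁅z, y⁆ ∈ A := by
  have h1 : A ⊔ Subgroup.closure (Set.range g) ≤
      (Subgroup.center (G ⧸ A)).comap (QuotientGroup.mk' A) := by
    refine sup_le ?_ ((Subgroup.closure_le _).2 ?_)
    · intro a ha
      have e : QuotientGroup.mk' A a = 1 := (QuotientGroup.eq_one_iff a).2 ha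
      rw [Subgroup.mem_comap, e]
      exact Subgroup.one_mem _
    · rintro _ ⟨i, rfl⟩
      refine Subgroup.mem_center_iff.2 fun z => ?_
      obtain ⟨z, rfl⟩ := QuotientGroup.mk'_surjective A z
      rw [← commutatorElement_eq_one_iff_mul_comm, ← map_commutatorElement]
      exact (QuotientGroup.eq_one_iff _).2 (hc z i)
  have h2 := Subgroup.mem_center_iff.1 (h1 hy) (QuotientGroup.mk' A z)
  rw [← commutatorElement_eq_one_iff_mul_comm, ← map_commutatorElement] at h2
  exact (QuotientGroup.eq_one_iff _).1 h2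

theorem normal_of_central (A : Subgroup G) [A.Normal] {r : ℕ} (g : Fin r → G)
    (hc : ∀ (y : G) (i : Fin r), ⁅y, g i⁆ ∈ A) :
    (A ⊔ Subgroup.closure (Set.range g)).Normal := ⟨by
  intro y hy z
  have h := central_mod A g hc y hy z
  have e : z * y * z⁻¹ = ⁅z, y⁆ * y := by rw [commutatorElement_def]; group
  rw [e]
  exact Subgroup.mul_mem _ ((le_sup_left : A ≤ _) h) hy⟩

/-- pushing a system and a relation to a quotient -/
theorem push {G' : Type} [Group G'] (θ : G →* G') {n : ℕ}
    (w : Fin n → Coprod G (FreeGroup (Fin n))) {q : ℤ}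
    (hcop : IsCoprime (Matrix.of fun i j : Fin n => Multiplicative.toAdd (eta G n i (w j))).det q)
    {r : ℕ} (g : Fin r → G)
    (hg : ∃ h : Fin r → (Coprod G (FreeGroup (Fin n)) ⧸ Subgroup.normalClosure (Set.range w)),
      (List.ofFn fun i => h i * QuotientGroup.mk' (Subgroup.normalClosure (Set.range w))
        (Coprod.inl (g i)) * (h i)⁻¹).prod = 1) :
    ∃ w' : Fin n → Coprod G' (FreeGroup (Fin n)),
      IsCoprime (Matrix.of fun i j : Fin n => Multiplicative.toAdd (eta G' n i (w' j))).det q ∧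
      ∃ h : Fin r → (Coprod G' (FreeGroup (Fin n)) ⧸ Subgroup.normalClosure (Set.range w')),
      (List.ofFn fun i => h i * QuotientGroup.mk' (Subgroup.normalClosure (Set.range w'))
        (Coprod.inl (θ (g i))) * (h i)⁻¹).prod = 1 := by
  let w' : Fin n → Coprod G' (FreeGroup (Fin n)) := fun j =>
    Coprod.map θ (MonoidHom.id _) (w j)
  have heta : ∀ i j, eta G' n i (w' j) = eta G n i (w j) := by
    intro i j
    have h1 : (eta G' n i).comp (Coprod.map θ (MonoidHom.id _)) = eta G n i := by
      apply Coprod.hom_ext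
      · refine MonoidHom.ext fun u => ?_
        simp [eta]
      · refine FreeGroup.ext_hom _ _ fun u => ?_
        simp [eta]
    exact DFunLike.congr_fun h1 (w j)
  have hle : Subgroup.normalClosure (Set.range w) ≤
      (Subgroup.normalClosure (Set.range w')).comap (Coprod.map θ (MonoidHom.id _)) := by
    refine Subgroup.normalClosure_le_normal ?_
    rintro _ ⟨j, rfl⟩
    exact Subgroup.subset_normalClosure ⟨j, rfl⟩
  let β := QuotientGroup.map (Subgroup.normalClosure (Set.range w))
    (Subgroup.normalClosure (Set.range w')) (Coprod.map θ (MonoidHom.id _)) hle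
  obtain ⟨h, hh⟩ := hg
  refine ⟨w', ?_, fun i => β (h i), ?_⟩
  · have e : (Matrix.of fun i j : Fin n => Multiplicative.toAdd (eta G' n i (w' j))) =
        Matrix.of fun i j : Fin n => Multiplicative.toAdd (eta G n i (w j)) := by
      ext i j
      exact congrArg Multiplicative.toAdd (heta i j)
    rw [e]
    exact hcop
  · have h3 := congrArg β hh
    rw [map_one, map_list_prod, List.map_ofFn] at h3
    rw [← h3]
    congr 2
    funext i
    simp only [Function.comp_apply, map_mul, map_inv]
    rfl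

theorem met_power {q : ℕ} (hq : q.Prime) (A : Subgroup G) [hAn : A.Normal]
    [hAc : IsMulCommutative A] (n : ℕ) (w : Fin n → Coprod G (FreeGroup (Fin n)))
    (hcop : IsCoprime (Matrix.of fun i j : Fin n => Multiplicative.toAdd (eta G n i (w j))).det
      (q : ℤ))
    (r : ℕ) (g : Fin r → G) (hc : ∀ (y : G) (i : Fin r), ⁅y, g i⁆ ∈ A)
    (hidx : ∃ k : ℕ, (A ⊔ Subgroup.closure (Set.range g)).index = q ^ k)
    (hg : ∃ h : Fin r → (Coprod G (FreeGroup (Fin n)) ⧸ Subgroup.normalClosure (Set.range w)),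
      (List.ofFn fun i => h i * QuotientGroup.mk' (Subgroup.normalClosure (Set.range w))
        (Coprod.inl (g i)) * (h i)⁻¹).prod = 1) :
    ∃ x : Fin r → G, (List.ofFn fun i => x i * g i * (x i)⁻¹).prod = 1 := by
  classical
  set R := A ⊔ Subgroup.closure (Set.range g) with hR
  have hRn : R.Normal := normal_of_central A g hc
  let θ : G →* G ⧸ ⁅R, R⁆ := QuotientGroup.mk' ⁅R, R⁆
  have hθs : Function.Surjective θ := QuotientGroup.mk'_surjective _
  obtain ⟨w', hcop', hg'⟩ := push θ w hcop g hg
  have hRn' : (R.map θ).Normal := hRn.map θ hθs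
  have hcm : ∀ a ∈ R.map θ, ∀ b ∈ R.map θ, a * b = b * a := by
    rintro _ ⟨a, ha, rfl⟩ _ ⟨b, hb, rfl⟩
    rw [← commutatorElement_eq_one_iff_mul_comm, ← map_commutatorElement]
    exact (QuotientGroup.eq_one_iff _).2 (Subgroup.commutator_mem_commutator ha hb)
  have hidx' : ∃ k : ℕ, (R.map θ).index = q ^ k := by
    obtain ⟨k, hk⟩ := hidx
    refine ⟨k, ?_⟩
    rw [← hk]
    exact Subgroup.index_map_eq R hθs (by
      rw [QuotientGroup.ker_mk']
      exact Subgroup.commutator_le_self R)
  obtain ⟨y, hy⟩ := power (G ⧸ ⁅R, R⁆) (R.map θ) hRn' hcm q hq n w' hcop' hidx' r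
    (fun i => θ (g i)) hg'
  choose x hx using fun i => hθs (y i)
  refine metab A g hc x ?_
  rw [← QuotientGroup.eq_one_iff]
  show θ _ = 1
  rw [map_list_prod, List.map_ofFn, ← hy]
  congr 2
  funext i
  simp [hx]

theorem met_free [IsFreeGroup G] {q : ℕ} (hq : q.Prime) (n : ℕ)
    (w : Fin n → Coprod G (FreeGroup (Fin n)))
    (hcop : IsCoprime (Matrix.of fun i j : Fin n => Multiplicative.toAdd (eta G n i (w j))).det
      (q : ℤ))
    (r : ℕ) (g : Fin r → G) (hres : ResMod q (commutator G ⊔ Subgroup.closure (Set.range g)))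
    (hg : ∃ h : Fin r → (Coprod G (FreeGroup (Fin n)) ⧸ Subgroup.normalClosure (Set.range w)),
      (List.ofFn fun i => h i * QuotientGroup.mk' (Subgroup.normalClosure (Set.range w))
        (Coprod.inl (g i)) * (h i)⁻¹).prod = 1) :
    ∃ x : Fin r → G, (List.ofFn fun i => x i * g i * (x i)⁻¹).prod ∈ derivedSeries G 2 := by
  classical
  set R := commutator G ⊔ Subgroup.closure (Set.range g) with hR
  have hc : ∀ (y : G) (i : Fin r), ⁅y, g i⁆ ∈ commutator G := fun y i =>
    Subgroup.commutator_mem_commutator (Subgroup.mem_top y) (Subgroup.mem_top (g i))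
  have hRn : R.Normal := normal_of_central (commutator G) g hc
  have hQ : ResQ q (G ⧸ R) := by
    intro y
    obtain ⟨y, rfl⟩ := QuotientGroup.mk_surjective y
    intro hy
    have hy' : y ∉ R := fun h => hy ((QuotientGroup.eq_one_iff _).2 h)
    obtain ⟨P, _, π, hk, h1, h2⟩ := hres y hy'
    exact ⟨P, inferInstance, QuotientGroup.lift R π h1, hk, h2⟩
  obtain ⟨Θ, h1, h2⟩ := magnus G R
  have hgR : ∀ i, g i ∈ R := fun i => (le_sup_right : Subgroup.closure (Set.range g) ≤ R)
    (Subgroup.subset_closure ⟨i, rfl⟩)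
  obtain ⟨x, hx⟩ := key hq hQ Θ (fun x => by
    obtain ⟨y, rfl⟩ := QuotientGroup.mk_surjective x
    exact ⟨y, h1 y⟩) n w hcop r g
    (fun i => by rw [h1]; exact (QuotientGroup.eq_one_iff _).2 (hgR i)) hg
  have hxR := h2 _ hx
  let D := ⁅commutator G, commutator G⁆
  let θ : G →* G ⧸ D := QuotientGroup.mk' D
  have hθs : Function.Surjective θ := QuotientGroup.mk'_surjective _
  have hAn : ((commutator G).map θ).Normal :=
    (inferInstance : (commutator G).Normal).map θ hθs
  have hAc : IsMulCommutative ((commutator G).map θ) := isMulCommutative_iff.2 (by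
    rintro ⟨_, a, ha, rfl⟩ ⟨_, b, hb, rfl⟩
    refine Subtype.ext ?_
    show θ a * θ b = θ b * θ a
    rw [← commutatorElement_eq_one_iff_mul_comm, ← map_commutatorElement]
    exact (QuotientGroup.eq_one_iff _).2 (Subgroup.commutator_mem_commutator ha hb))
  have hRθ : R.map θ = (commutator G).map θ ⊔ Subgroup.closure (Set.range fun i => θ (g i)) := by
    rw [hR, Subgroup.map_sup, MonoidHom.map_closure, ← Set.range_comp]
    rfl
  obtain ⟨x', hx'⟩ := metab ((commutator G).map θ) (fun i => θ (g i)) (by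
    intro y i
    obtain ⟨y, rfl⟩ := hθs y
    exact ⟨⁅y, g i⁆, hc y i, map_commutatorElement θ y (g i)⟩) (fun i => θ (x i)) (by
    rw [← hRθ, ← Subgroup.map_commutator]
    refine ⟨_, hxR, ?_⟩
    rw [map_list_prod, List.map_ofFn]
    congr 2)
  choose y hy using fun i => hθs (x' i)
  refine ⟨y, ?_⟩
  show _ ∈ D
  rw [← QuotientGroup.eq_one_iff]
  show θ _ = 1
  rw [map_list_prod, List.map_ofFn, ← hx']
  congr 2
  funext i
  simp [hy]

end

end Pool.Agent.X201.KW
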