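import Pool.Agent.X201.KW.Met2

/-! Free groups and tuples which are central modulo a normal subgroup `N`. -/

set_option autoImplicit false

open Monoid
open scoped IsMulCommutative commutatorElement
open Pool.Agent.TH63.KQ (eta power)

namespace Pool.Agent.X201.KW

variable {G : Type} [Group G]

theorem met_free_mod [IsFreeGroup G] {q : ℕ} (hq : q.Prime) (N : Subgroup G) [hNn : N.Normal]
    (n : ℕ) (w : Fin n → Coprod G (FreeGroup (Fin n)))
    (hcop : IsCoprime (Matrix.of fun i j : Fin n => Multiplicative.toAdd (eta G n i (w j))).det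
      (q : ℤ))
    (r : ℕ) (g : Fin r → G) (hc : ∀ (y : G) (i : Fin r), ⁅y, g i⁆ ∈ N)
    (hres : ResMod q (N ⊔ Subgroup.closure (Set.range g)))
    (hg : ∃ h : Fin r → (Coprod G (FreeGroup (Fin n)) ⧸ Subgroup.normalClosure (Set.range w)),
      (List.ofFn fun i => h i * QuotientGroup.mk' (Subgroup.normalClosure (Set.range w))
        (Coprod.inl (g i)) * (h i)⁻¹).prod = 1) :
    ∃ x : Fin r → G, (List.ofFn fun i => x i * g i * (x i)⁻¹).prod ∈ ⁅N, N⁆ := by
  classical
  set R := N ⊔ Subgroup.closure (Set.range g) with hR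
  have hRn : R.Normal := normal_of_central N g hc
  have hQ : ResQ q (G ⧸ R) := by
    intro y
    obtain ⟨y, rfl⟩ := QuotientGroup.mk_surjective y
    intro hy
    have hy' : y ∉ R := fun h => hy ((QuotientGroup.eq_one_iff _).2 h)
    obtain ⟨P, _, π, hk, h1, h2⟩ := hres y hy'
    exact ⟨P, inferInstance, QuotientGroup.lift R π h1, hk, h2⟩
  obtain ⟨Θ, h1, h2⟩ := magnus G R
  have hgR : ∀ i, g i ∈ R := fun i => (le_sup_right : Subgroup.closure (Set.range g) ≤ R)
    (Subgroup.subset_closure ⟨i, rfl⟩)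
  obtain ⟨x, hx⟩ := key hq hQ Θ (fun x => by
    obtain ⟨y, rfl⟩ := QuotientGroup.mk_surjective x
    exact ⟨y, h1 y⟩) n w hcop r g
    (fun i => by rw [h1]; exact (QuotientGroup.eq_one_iff _).2 (hgR i)) hg
  have hxR := h2 _ hx
  let D := ⁅N, N⁆
  let θ : G →* G ⧸ D := QuotientGroup.mk' D
  have hθs : Function.Surjective θ := QuotientGroup.mk'_surjective _
  have hAn : (N.map θ).Normal := hNn.map θ hθs
  have hAc : IsMulCommutative (N.map θ) := isMulCommutative_iff.2 (by
    rintro ⟨_, a, ha, rfl⟩ ⟨_, b, hb, rfl⟩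
    refine Subtype.ext ?_
    show θ a * θ b = θ b * θ a
    rw [← commutatorElement_eq_one_iff_mul_comm, ← map_commutatorElement]
    exact (QuotientGroup.eq_one_iff _).2 (Subgroup.commutator_mem_commutator ha hb))
  have hRθ : R.map θ = N.map θ ⊔ Subgroup.closure (Set.range fun i => θ (g i)) := by
    rw [hR, Subgroup.map_sup, MonoidHom.map_closure, ← Set.range_comp]
    rfl
  obtain ⟨x', hx'⟩ := metab (N.map θ) (fun i => θ (g i)) (by
    intro y i
    obtain ⟨y, rfl⟩ := hθs y
    exact ⟨⁅y, g i⁆, hc y i, map_commutatorElement θ y (g i)⟩) (fun i => θ (x i)) (by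
    rw [← hRθ, ← Subgroup.map_commutator]
    refine ⟨_, hxR, ?_⟩
    rw [map_list_prod, List.map_ofFn]
    congr 2)
  choose y hy using fun i => hθs (x' i)
  refine ⟨y, ?_⟩
  show _ ∈ D
  rw [← QuotientGroup.eq_one_iff]
  show θ _ = 1
  rw [map_list_prod, List.map_ofFn, ← hx']
  congr 2
  funext i
  simp [hy]

end Pool.Agent.X201.KW
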