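import Mathlib

/-! Restricted wreath products `V ≀ Q`, `V` abelian. -/

set_option autoImplicit false

namespace Pool.Agent.X201.KW

/-- the restricted wreath product of the abelian group `V` and the group `Q`: pairs `(f, a)`, `f` a
function `Q → V` with finite support, `a` in `Q` -/
@[ext] structure Wr (V Q : Type) [AddCommGroup V] [Group Q] where
  f : Q →₀ V
  a : Q

namespace Wr

variable {V Q P : Type} [AddCommGroup V] [Group Q] [Group P]

/-- translation of a function -/
noncomputable def sh (a : Q) (f : Q →₀ V) : Q →₀ V := Finsupp.mapDomain (fun y => a * y) f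

theorem sh_add (a : Q) (f f' : Q →₀ V) : sh a (f + f') = sh a f + sh a f' :=
  Finsupp.mapDomain_add

theorem sh_mul (a b : Q) (f : Q →₀ V) : sh (a * b) f = sh a (sh b f) := by
  unfold sh
  rw [← Finsupp.mapDomain_comp]
  congr 1
  funext y
  simp [mul_assoc]

theorem sh_one (f : Q →₀ V) : sh 1 f = f := by
  unfold sh
  simp only [one_mul]
  exact Finsupp.mapDomain_id

theorem sh_zero (a : Q) : sh a (0 : Q →₀ V) = 0 := Finsupp.mapDomain_zero

noncomputable instance : Mul (Wr V Q) := ⟨fun p q => ⟨p.f + sh p.a q.f, p.a * q.a⟩⟩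
noncomputable instance : One (Wr V Q) := ⟨⟨0, 1⟩⟩
noncomputable instance : Inv (Wr V Q) := ⟨fun p => ⟨-sh p.a⁻¹ p.f, p.a⁻¹⟩⟩

@[simp] theorem mul_f (p q : Wr V Q) : (p * q).f = p.f + sh p.a q.f := rfl
@[simp] theorem mul_a (p q : Wr V Q) : (p * q).a = p.a * q.a := rfl
@[simp] theorem one_f : (1 : Wr V Q).f = 0 := rfl
@[simp] theorem one_a : (1 : Wr V Q).a = 1 := rfl
@[simp] theorem inv_f (p : Wr V Q) : (p⁻¹).f = -sh p.a⁻¹ p.f := rfl
@[simp] theorem inv_a (p : Wr V Q) : (p⁻¹).a = p.a⁻¹ := rfl

theorem sh_neg (a : Q) (f : Q →₀ V) : sh a (-f) = -sh a f := by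
  have h := sh_add a f (-f)
  rw [add_neg_cancel, sh_zero] at h
  exact (neg_eq_of_add_eq_zero_right h.symm).symm

noncomputable instance : Group (Wr V Q) where
  mul_assoc p q r := by
    ext1
    · simp only [mul_f, mul_a]
      rw [sh_add, sh_mul, add_assoc]
    · simp [mul_assoc]
  one_mul p := by
    ext1
    · simp [sh_one]
    · simp
  mul_one p := by
    ext1
    · simp [sh_zero]
    · simp
  inv_mul_cancel p := by
    ext1
    · simp
    · simp

/-- the second coordinate -/
def proj : Wr V Q →* Q where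
  toFun p := p.a
  map_one' := rfl
  map_mul' _ _ := rfl

@[simp] theorem proj_apply (p : Wr V Q) : proj p = p.a := rfl

/-- functoriality in the top group -/
noncomputable def map (π : Q →* P) : Wr V Q →* Wr V P where
  toFun p := ⟨Finsupp.mapDomain π p.f, π p.a⟩
  map_one' := by
    ext1
    · show Finsupp.mapDomain π (0 : Q →₀ V) = 0
      exact Finsupp.mapDomain_zero
    · exact map_one π
  map_mul' p q := by
    ext1
    · simp only [mul_f, sh]
      rw [Finsupp.mapDomain_add, ← Finsupp.mapDomain_comp, ← Finsupp.mapDomain_comp]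
      congr 2
      funext y
      simp
    · exact map_mul π _ _

@[simp] theorem map_f (π : Q →* P) (p : Wr V Q) : (map π p).f = Finsupp.mapDomain π p.f := rfl
@[simp] theorem map_a (π : Q →* P) (p : Wr V Q) : (map π p).a = π p.a := rfl

theorem conj_f (x g : Wr V Q) (hg : g.a = 1) : (x * g * x⁻¹).f = sh x.a g.f := by
  simp only [mul_f, mul_a, hg, mul_one, inv_f, sh_neg]
  rw [← sh_mul, mul_inv_cancel, sh_one]
  abel

theorem conj_a (x g : Wr V Q) (hg : g.a = 1) : (x * g * x⁻¹).a = 1 := by
  simp [hg]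

theorem prod_ofFn {r : ℕ} (u : Fin r → Wr V Q) (hu : ∀ i, (u i).a = 1) :
    (List.ofFn u).prod.a = 1 ∧ (List.ofFn u).prod.f = ∑ i, (u i).f := by
  induction r with
  | zero => simp
  | succ r ih =>
    rw [List.ofFn_succ, List.prod_cons, Fin.sum_univ_succ]
    obtain ⟨h1, h2⟩ := ih (fun i => u i.succ) fun i => hu _
    refine ⟨?_, ?_⟩
    · rw [mul_a, h1, hu, one_mul]
    · rw [mul_f, h2, hu, sh_one]

end Wr

/-! ### The unwrapping lemma -/

section unwrap

variable {V Q P : Type} [AddCommGroup V] [Group Q] [Group P]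

/-- a map of sets which commutes with right multiplication -/
theorem exists_retr (ι : Q →* P) (hι : Function.Injective ι) :
    ∃ ψ : P → Q, ∀ x q, ψ (x * ι q) = ψ x * q := by
  classical
  have h1 : ∀ x : P, ∃ q : Q, x = (QuotientGroup.mk (s := ι.range) x).out * ι q := by
    intro x
    obtain ⟨h, hh⟩ := QuotientGroup.mk_out_eq_mul ι.range x
    obtain ⟨q, hq⟩ := h.2
    refine ⟨q⁻¹, ?_⟩
    rw [hh, map_inv, hq]
    group
  choose ψ hψ using h1
  refine ⟨ψ, fun x q => ?_⟩
  have h2 : (QuotientGroup.mk (s := ι.range) (x * ι q)) = QuotientGroup.mk (s := ι.range) x := by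
    refine (QuotientGroup.eq.2 ?_).symm
    exact ⟨q, by group⟩
  have h3 := hψ (x * ι q)
  rw [h2] at h3
  have h4 := hψ x
  have h5 : x * ι q = (QuotientGroup.mk (s := ι.range) x).out * ι (ψ x * q) := by
    rw [map_mul, ← mul_assoc, ← h4]
  exact hι (mul_left_cancel (h3.symm.trans h5))

/-- relations over an overgroup -/
theorem unwrap_over (ι : Q →* P) (hι : Function.Injective ι) {r : ℕ} (f : Fin r → (Q →₀ V))
    (m : Fin r → P) (h : ∑ i, Finsupp.mapDomain (fun y => m i * ι y) (f i) = 0) :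
    ∃ m' : Fin r → Q, ∑ i, Finsupp.mapDomain (fun y => m' i * y) (f i) = 0 := by
  obtain ⟨ψ, hψ⟩ := exists_retr ι hι
  refine ⟨fun i => ψ (m i), ?_⟩
  have h1 := congrArg (Finsupp.mapDomain ψ) h
  rw [Finsupp.mapDomain_zero, Finsupp.mapDomain_finsetSum] at h1
  rw [← h1]
  refine Finset.sum_congr rfl fun i _ => ?_
  rw [← Finsupp.mapDomain_comp]
  congr 1
  funext y
  exact (hψ _ _).symm

omit [Group Q] [Group P] in
theorem mapDomain_eval (h : Q → P) (f : Q →₀ V) (x : P) [∀ y, Decidable (h y = x)] :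
    Finsupp.mapDomain h f x = ∑ y ∈ f.support, if h y = x then f y else 0 := by
  classical
  rw [Finsupp.mapDomain, Finsupp.sum_apply, Finsupp.sum]
  refine Finset.sum_congr rfl fun y _ => ?_
  rw [Finsupp.single_apply]

/-- relations in enough quotients -/
theorem unwrap {r : ℕ} (f : Fin r → (Q →₀ V))
    (h : ∀ B : Finset Q, ∃ (P : Type) (_ : Group P) (π : Q →* P) (m : Fin r → P),
      (∀ b ∈ B, π b = 1 → b = 1) ∧
        ∑ i, Finsupp.mapDomain (fun y => m i * π y) (f i) = 0) :
    ∃ m : Fin r → Q, ∑ i, Finsupp.mapDomain (fun y => m i * y) (f i) = 0 := by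
  classical
  choose P iP π m hB hm using h
  let U : Ultrafilter (Finset Q) := Ultrafilter.of Filter.atTop
  have hU : ∀ B0 : Finset Q, ∀ᶠ B in (U : Filter (Finset Q)), B0 ≤ B := fun B0 =>
    Ultrafilter.of_le Filter.atTop (Filter.eventually_ge_atTop B0)
  let K : Subgroup (∀ B, P B) :=
    { carrier := {x | ∀ᶠ B in (U : Filter (Finset Q)), x B = 1}
      mul_mem' := by
        intro a b ha hb
        filter_upwards [ha, hb] with B h1 h2
        rw [Pi.mul_apply, h1, h2, one_mul]
      one_mem' := Filter.Eventually.of_forall fun B => rfl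
      inv_mem' := by
        intro a ha
        filter_upwards [ha] with B h1
        rw [Pi.inv_apply, h1, inv_one] }
  have hKn : K.Normal := ⟨by
    intro n hn g
    filter_upwards [hn] with B h1
    rw [Pi.mul_apply, Pi.mul_apply, Pi.inv_apply, h1, mul_one, mul_inv_cancel]⟩
  have hmk : ∀ x y : ∀ B, P B, (QuotientGroup.mk x : (∀ B, P B) ⧸ K) = QuotientGroup.mk y ↔
      ∀ᶠ B in (U : Filter (Finset Q)), x B = y B := by
    intro x y
    rw [QuotientGroup.eq]
    constructor
    · intro h
      filter_upwards [h] with B h1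
      rw [Pi.mul_apply, Pi.inv_apply] at h1
      exact (inv_mul_eq_one.1 h1)
    · intro h
      show ∀ᶠ B in (U : Filter (Finset Q)), (x⁻¹ * y) B = 1
      filter_upwards [h] with B h1
      rw [Pi.mul_apply, Pi.inv_apply, h1, inv_mul_cancel]
  let ι0 : Q →* (∀ B, P B) := MonoidHom.mk' (fun q B => π B q) (fun a b => by
    funext B
    exact map_mul (π B) a b)
  let ι : Q →* (∀ B, P B) ⧸ K := (QuotientGroup.mk' K).comp ι0
  have hι : Function.Injective ι := by
    rw [injective_iff_map_eq_one]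
    intro q hq
    have h1 : (QuotientGroup.mk (ι0 q) : (∀ B, P B) ⧸ K) = QuotientGroup.mk 1 := hq
    rw [hmk] at h1
    obtain ⟨B, h2, h3⟩ := (h1.and (hU {q})).exists
    exact hB B q (h3 (Finset.mem_singleton_self q)) h2
  refine unwrap_over ι hι f (fun i => QuotientGroup.mk fun B => m B i) ?_
  ext x
  obtain ⟨x, rfl⟩ := QuotientGroup.mk_surjective x
  rw [Finsupp.finsetSum_apply, Finsupp.zero_apply]
  -- the pattern
  have hpat : ∀ᶠ B in (U : Filter (Finset Q)), ∀ i : Fin r, ∀ y ∈ (f i).support,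
      (m B i * π B y = x B ↔ (QuotientGroup.mk (fun B => m B i) : (∀ B, P B) ⧸ K) * ι y =
        QuotientGroup.mk x) := by
    rw [Filter.eventually_all]
    intro i
    rw [Filter.eventually_all_finset]
    intro y _
    have h1 : ((QuotientGroup.mk (fun B => m B i) : (∀ B, P B) ⧸ K) * ι y =
        QuotientGroup.mk x) ↔ ∀ᶠ B in (U : Filter (Finset Q)), m B i * π B y = x B :=
      hmk (fun B => m B i * π B y) x
    by_cases h2 : ∀ᶠ B in (U : Filter (Finset Q)), m B i * π B y = x B
    · filter_upwards [h2] with B h3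
      exact ⟨fun _ => h1.2 h2, fun _ => h3⟩
    · have h3 : ∀ᶠ B in (U : Filter (Finset Q)), ¬ (m B i * π B y = x B) :=
        (Ultrafilter.eventually_not (f := U)).2 h2
      filter_upwards [h3] with B h4
      exact ⟨fun h => absurd h h4, fun h => absurd (h1.1 h) h2⟩
  obtain ⟨B, hBp⟩ := hpat.exists
  have h5 := DFunLike.congr_fun (hm B) (x B)
  rw [Finsupp.finsetSum_apply, Finsupp.zero_apply] at h5
  rw [← h5]
  refine Finset.sum_congr rfl fun i _ => ?_
  rw [mapDomain_eval, mapDomain_eval]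
  refine Finset.sum_congr rfl fun y hy => ?_
  exact if_congr (hBp i y hy).symm rfl rfl

end unwrap

end Pool.Agent.X201.KW
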